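import Pool.Agent.H30.LE.L2
import Pool.Agent.H87.LE.A03_Emb
import Pool.Agent.H87.LE.A16_Chain

/-!
Basic facts on limits of test functions (A17, MP_7eb226_an).
-/

open MeasureTheory Complex Set Filter Topology
open scoped ContDiff

namespace Pool.Agent.H87.LE

theorem a17_inner_gradient (φ : ℂ → ℝ) (z e : ℂ) :
    inner ℝ (gradient φ z) e = fderiv ℝ φ z e := by
  unfold gradient
  rw [InnerProductSpace.toDual_symm_apply]

theorem a17_gradient_zero {φ : ℂ → ℝ} {z : ℂ} (h : z ∉ tsupport φ) : gradient φ z = 0 := by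
  have h1 : fderiv ℝ φ z = 0 := by
    by_contra hne
    exact h (support_fderiv_subset ℝ (f := φ) hne)
  unfold gradient
  rw [h1, map_zero]

theorem a17_gradient_cont {φ : ℂ → ℝ} (h : ContDiff ℝ ∞ φ) : Continuous (gradient φ) := by
  unfold gradient
  exact (LinearIsometryEquiv.continuous _).comp (h.continuous_fderiv (by simp))

theorem a17_tst_grad_supp {Ω : Set ℂ} {φ : ℂ → ℝ} (h : Tst Ω φ) :
    HasCompactSupport (gradient φ) := by
  refine HasCompactSupport.intro h.2.1 ?_
  intro z hz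
  exact a17_gradient_zero hz

theorem a17_tst_memLp {Ω : Set ℂ} {φ : ℂ → ℝ} (h : Tst Ω φ) (p : ENNReal) :
    MemLp φ p volume :=
  h.1.continuous.memLp_of_hasCompactSupport h.2.1

theorem a17_tst_memLp_grad {Ω : Set ℂ} {φ : ℂ → ℝ} (h : Tst Ω φ) (p : ENNReal) :
    MemLp (gradient φ) p volume :=
  (a17_gradient_cont h.1).memLp_of_hasCompactSupport (a17_tst_grad_supp h)

theorem a17_tst_mono {Ω Ω' : Set ℂ} (hs : Ω ⊆ Ω') {φ : ℂ → ℝ} (h : Tst Ω φ) : Tst Ω' φ :=
  ⟨h.1, h.2.1, h.2.2.trans hs⟩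

theorem a17_tst_off {Ω : Set ℂ} {φ : ℂ → ℝ} (h : Tst Ω φ) {z : ℂ} (hz : z ∉ Ω) :
    φ z = 0 ∧ gradient φ z = 0 := by
  have : z ∉ tsupport φ := fun h' => hz (h.2.2 h')
  exact ⟨image_eq_zero_of_notMem_tsupport this, a17_gradient_zero this⟩

theorem a17_gradient_sub {φ ψ : ℂ → ℝ} (h1 : ContDiff ℝ ∞ φ) (h2 : ContDiff ℝ ∞ ψ) (z : ℂ) :
    gradient (fun z => φ z - ψ z) z = gradient φ z - gradient ψ z := by
  unfold gradient
  have d1 : DifferentiableAt ℝ φ z := h1.differentiable (by simp) z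
  have d2 : DifferentiableAt ℝ ψ z := h2.differentiable (by simp) z
  rw [show (fun z => φ z - ψ z) = φ - ψ from rfl, fderiv_sub d1 d2, map_sub]

theorem a17_tst_sub {Ω : Set ℂ} {φ ψ : ℂ → ℝ} (h1 : Tst Ω φ) (h2 : Tst Ω ψ) :
    Tst Ω (fun z => φ z - ψ z) :=
  ⟨h1.1.sub h2.1, h1.2.1.sub h2.2.1, (tsupport_sub φ ψ).trans (union_subset h1.2.2 h2.2.2)⟩

/-- `L²` convergence also after restriction -/
theorem a17_restrict {E : Type*} [NormedAddCommGroup E] (Ω : Set ℂ) {b : ℕ → ℂ → E} {b' : ℂ → E}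
    (h : Tendsto (fun n => eLpNorm (fun x => b n x - b' x) 2 volume) atTop (𝓝 0)) :
    Tendsto (fun n => eLpNorm (fun x => b n x - b' x) 2 (volume.restrict Ω)) atTop (𝓝 0) :=
  tendsto_of_tendsto_of_tendsto_of_le_of_le tendsto_const_nhds h (fun _ => zero_le)
    (fun _ => eLpNorm_mono_measure _ Measure.restrict_le_self)

theorem a17_lim_memLp {Ω : Set ℂ} {φ : ℕ → ℂ → ℝ} (hφ : ∀ n, Tst Ω (φ n)) {v : ℂ → ℝ}
    {G : ℂ → ℂ} (h : Lim φ v G) : MemLp v 2 volume ∧ MemLp G 2 volume :=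
  ⟨H30.LE.memLp_of_tendsto (fun n => a17_tst_memLp (hφ n) 2) h.1 h.2.2.1,
    H30.LE.memLp_of_tendsto (fun n => a17_tst_memLp_grad (hφ n) 2) h.2.1 h.2.2.2⟩

/-- integration by parts, passed to the limit -/
theorem a17_ibp {Ω : Set ℂ} {φ : ℕ → ℂ → ℝ} (hφ : ∀ n, Tst Ω (φ n)) {v : ℂ → ℝ}
    {G : ℂ → ℂ} (h : Lim φ v G) {ψ : ℂ → ℝ} (hψ : ContDiff ℝ ∞ ψ) (hψc : HasCompactSupport ψ)
    (e : ℂ) : ∫ z, inner ℝ (ψ z • e) (G z) = - ∫ z, inner ℝ (fderiv ℝ ψ z e) (v z) := by
  obtain ⟨hv, hG⟩ := a17_lim_memLp hφ h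
  have hψT : Tst univ ψ := ⟨hψ, hψc, subset_univ _⟩
  have m1 : MemLp (fun z => ψ z • e) 2 volume := by
    have hc : Continuous fun z => ψ z • e := hψ.continuous.smul continuous_const
    refine hc.memLp_of_hasCompactSupport (hψc.smul_right)
  have m2 : MemLp (fun z => fderiv ℝ ψ z e) 2 volume := by
    have hc : Continuous fun z => fderiv ℝ ψ z e :=
      (hψ.continuous_fderiv (by simp)).clm_apply continuous_const
    refine hc.memLp_of_hasCompactSupport ?_
    refine HasCompactSupport.intro hψc ?_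
    intro z hz
    have : fderiv ℝ ψ z = 0 := by
      by_contra hne
      exact hz (support_fderiv_subset ℝ (f := ψ) hne)
    rw [this]; rfl
  have t1 := H30.LE.tendsto_integral_inner_left m1 (fun n => a17_tst_memLp_grad (hφ n) 2) hG h.2.2.2
  have t2 := H30.LE.tendsto_integral_inner_left m2 (fun n => a17_tst_memLp (hφ n) 2) hv h.2.2.1
  have key : ∀ n, ∫ z, inner ℝ (ψ z • e) (gradient (φ n) z) =
      - ∫ z, inner ℝ (fderiv ℝ ψ z e) (φ n z) := by
    intro n
    have e1 : ∀ z, inner ℝ (ψ z • e) (gradient (φ n) z) = ψ z * fderiv ℝ (φ n) z e := by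
      intro z
      rw [real_inner_smul_left, real_inner_comm, a17_inner_gradient]
    have e2 : ∀ z, inner ℝ (fderiv ℝ ψ z e) (φ n z) = fderiv ℝ ψ z e * φ n z := by
      intro z
      rw [real_inner_eq_re_inner ℝ]
      simp [mul_comm]
    simp only [e1, e2]
    have c1 : Continuous fun z => fderiv ℝ ψ z e :=
      (hψ.continuous_fderiv (by simp)).clm_apply continuous_const
    have c2 : Continuous fun z => fderiv ℝ (φ n) z e :=
      ((hφ n).1.continuous_fderiv (by simp)).clm_apply continuous_const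
    apply integral_mul_fderiv_eq_neg_fderiv_mul_of_integrable
    · exact (c1.mul (hφ n).1.continuous).integrable_of_hasCompactSupport ((hφ n).2.1.mul_left)
    · exact (hψ.continuous.mul c2).integrable_of_hasCompactSupport (hψc.mul_right)
    · exact (hψ.continuous.mul (hφ n).1.continuous).integrable_of_hasCompactSupport (hψc.mul_right)
    · intro z _; exact hψ.differentiable (by simp) z
    · intro z _; exact (hφ n).1.differentiable (by simp) z
  have t3 := t2.neg
  exact tendsto_nhds_unique t1 (t3.congr fun n => (key n).symm)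

/-- uniqueness of the gradient -/
theorem a17_lim_unique {Ω Ω' : Set ℂ} {φ χ : ℕ → ℂ → ℝ} (hφ : ∀ n, Tst Ω (φ n))
    (hχ : ∀ n, Tst Ω' (χ n)) {v v' : ℂ → ℝ} {G G' : ℂ → ℂ} (h : Lim φ v G) (h' : Lim χ v' G')
    (hv : v =ᵐ[volume] v') : G =ᵐ[volume] G' := by
  have hG := (a17_lim_memLp hφ h).2
  have hG' := (a17_lim_memLp hχ h').2
  have hd : MemLp (fun z => G z - G' z) 2 volume := hG.sub hG'
  have key : ∀ e : ℂ, ∀ᵐ z, inner ℝ e (G z - G' z) = 0 := by
    intro e
    have hli : LocallyIntegrable (fun z => inner ℝ e (G z - G' z)) volume := by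
      have : MemLp (fun z => inner ℝ e (G z - G' z)) 2 volume := by
        exact hd.const_inner e
      exact this.locallyIntegrable (by norm_num)
    refine ae_eq_zero_of_integral_contDiff_smul_eq_zero hli ?_
    intro ψ hψ hψc
    have a := a17_ibp hφ h hψ hψc e
    have b := a17_ibp hχ h' hψ hψc e
    have m1 : MemLp (fun z => ψ z • e) 2 volume := by
      have hc : Continuous fun z => ψ z • e := hψ.continuous.smul continuous_const
      exact hc.memLp_of_hasCompactSupport (hψc.smul_right)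
    have c : ∫ z, inner ℝ (fderiv ℝ ψ z e) (v z) = ∫ z, inner ℝ (fderiv ℝ ψ z e) (v' z) :=
      integral_congr_ae (by filter_upwards [hv] with z hz; rw [hz])
    have : ∫ z, ψ z • inner ℝ e (G z - G' z) =
        (∫ z, inner ℝ (ψ z • e) (G z)) - ∫ z, inner ℝ (ψ z • e) (G' z) := by
      rw [← integral_sub (H30.LE.integrable_inner m1 hG) (H30.LE.integrable_inner m1 hG')]
      congr 1
      funext z
      rw [real_inner_smul_left, real_inner_smul_left, inner_sub_right, smul_eq_mul]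
      ring
    rw [this, a, b, c]
    ring
  filter_upwards [key 1, key I] with z h1 h2
  have : G z - G' z = 0 := by
    apply Complex.ext
    · simpa [Complex.inner] using h1
    · simpa [Complex.inner] using h2
  exact sub_eq_zero.mp this

end Pool.Agent.H87.LE
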