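import Mathlib

/-!
Elliptic coordinates `z^4 = cosh (ξ + i η)` on the sector `0 < Im z < Re z` (MP_7eb226_an).
-/

open MeasureTheory Real

namespace H30.LE

/-- the half strip -/
def Strip : Set ℂ := {w | 0 < w.re ∧ 0 < w.im ∧ w.im < π}

/-- the open sector `0 < arg z < π/4` -/
def Sec : Set ℂ := {z | 0 < z.im ∧ z.im < z.re}

theorem cosh_re (w : ℂ) : (Complex.cosh w).re = Real.cosh w.re * Real.cos w.im := by
  conv_lhs => rw [← Complex.re_add_im w]
  rw [Complex.cosh_add, Complex.cosh_mul_I, Complex.sinh_mul_I]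
  simp [← Complex.ofReal_cosh, ← Complex.ofReal_sinh, ← Complex.ofReal_cos, ← Complex.ofReal_sin]

theorem cosh_im (w : ℂ) : (Complex.cosh w).im = Real.sinh w.re * Real.sin w.im := by
  conv_lhs => rw [← Complex.re_add_im w]
  rw [Complex.cosh_add, Complex.cosh_mul_I, Complex.sinh_mul_I]
  simp [← Complex.ofReal_cosh, ← Complex.ofReal_sinh, ← Complex.ofReal_cos, ← Complex.ofReal_sin]

theorem sinh_re (w : ℂ) : (Complex.sinh w).re = Real.sinh w.re * Real.cos w.im := by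
  conv_lhs => rw [← Complex.re_add_im w]
  rw [Complex.sinh_add, Complex.cosh_mul_I, Complex.sinh_mul_I]
  simp [← Complex.ofReal_cosh, ← Complex.ofReal_sinh, ← Complex.ofReal_cos, ← Complex.ofReal_sin]

theorem sinh_im (w : ℂ) : (Complex.sinh w).im = Real.cosh w.re * Real.sin w.im := by
  conv_lhs => rw [← Complex.re_add_im w]
  rw [Complex.sinh_add, Complex.cosh_mul_I, Complex.sinh_mul_I]
  simp [← Complex.ofReal_cosh, ← Complex.ofReal_sinh, ← Complex.ofReal_cos, ← Complex.ofReal_sin]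

theorem normSq_cosh (w : ℂ) :
    Complex.normSq (Complex.cosh w) = Real.sinh w.re ^ 2 + Real.cos w.im ^ 2 := by
  rw [Complex.normSq_apply, cosh_re, cosh_im]
  have h1 := Real.cosh_sq w.re
  have h2 := Real.sin_sq_add_cos_sq w.im
  have h3 : Real.sin w.im ^ 2 = 1 - Real.cos w.im ^ 2 := by linarith
  ring_nf
  rw [h1, h3]
  ring

theorem normSq_sinh (w : ℂ) :
    Complex.normSq (Complex.sinh w) = Real.sinh w.re ^ 2 + Real.sin w.im ^ 2 := by
  rw [Complex.normSq_apply, sinh_re, sinh_im]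
  have h1 := Real.cosh_sq w.re
  have h2 := Real.sin_sq_add_cos_sq w.im
  have h3 : Real.cos w.im ^ 2 = 1 - Real.sin w.im ^ 2 := by linarith
  ring_nf
  rw [h1, h3]
  ring

theorem norm_cosh_add_one (w : ℂ) :
    ‖Complex.cosh w + 1‖ = Real.cosh w.re + Real.cos w.im := by
  have h0 : 0 ≤ Real.cosh w.re + Real.cos w.im := by
    have := Real.one_le_cosh w.re
    have := Real.neg_one_le_cos w.im
    linarith
  rw [← Real.sqrt_sq h0, Complex.norm_def]
  congr 1
  rw [Complex.normSq_apply, Complex.add_re, Complex.add_im, cosh_re, cosh_im]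
  simp only [Complex.one_re, Complex.one_im, add_zero]
  have h1 := Real.sinh_sq w.re
  have h2 := Real.sin_sq_add_cos_sq w.im
  have h3 : Real.sin w.im ^ 2 = 1 - Real.cos w.im ^ 2 := by linarith
  ring_nf
  rw [h1, h3]
  ring

theorem norm_cosh_sub_one (w : ℂ) :
    ‖Complex.cosh w - 1‖ = Real.cosh w.re - Real.cos w.im := by
  have h0 : 0 ≤ Real.cosh w.re - Real.cos w.im := by
    have := Real.one_le_cosh w.re
    have := Real.cos_le_one w.im
    linarith
  rw [← Real.sqrt_sq h0, Complex.norm_def]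
  congr 1
  rw [Complex.normSq_apply, Complex.sub_re, Complex.sub_im, cosh_re, cosh_im]
  simp only [Complex.one_re, Complex.one_im, sub_zero]
  have h1 := Real.sinh_sq w.re
  have h2 := Real.sin_sq_add_cos_sq w.im
  have h3 : Real.sin w.im ^ 2 = 1 - Real.cos w.im ^ 2 := by linarith
  ring_nf
  rw [h1, h3]
  ring

theorem cosh_injOn : Set.InjOn Complex.cosh Strip := by
  intro w hw w' hw' h
  have h1 := norm_cosh_add_one w
  have h2 := norm_cosh_sub_one w
  have h1' := norm_cosh_add_one w'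
  have h2' := norm_cosh_sub_one w'
  rw [h] at h1 h2
  have hc : Real.cosh w.re = Real.cosh w'.re := by linarith
  have hd : Real.cos w.im = Real.cos w'.im := by linarith
  apply Complex.ext
  · exact Real.cosh_injOn (Set.mem_Ici.mpr hw.1.le) (Set.mem_Ici.mpr hw'.1.le) hc
  · exact Real.injOn_cos ⟨hw.2.1.le, hw.2.2.le⟩ ⟨hw'.2.1.le, hw'.2.2.le⟩ hd

theorem cosh_surj (ζ : ℂ) (h : 0 < ζ.im) : ∃ w ∈ Strip, Complex.cosh w = ζ := by
  set A : ℝ := (‖ζ + 1‖ + ‖ζ - 1‖) / 2 with hA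
  set B : ℝ := (‖ζ + 1‖ - ‖ζ - 1‖) / 2 with hB
  have n1 : ‖ζ + 1‖ ^ 2 = (ζ.re + 1) ^ 2 + ζ.im ^ 2 := by
    rw [Complex.sq_norm, Complex.normSq_apply]
    simp only [Complex.add_re, Complex.add_im, Complex.one_re, Complex.one_im]
    ring
  have n2 : ‖ζ - 1‖ ^ 2 = (ζ.re - 1) ^ 2 + ζ.im ^ 2 := by
    rw [Complex.sq_norm, Complex.normSq_apply]
    simp only [Complex.sub_re, Complex.sub_im, Complex.one_re, Complex.one_im]
    ring
  have p1 : 0 ≤ ‖ζ + 1‖ := norm_nonneg _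
  have p2 : 0 ≤ ‖ζ - 1‖ := norm_nonneg _
  have AB : A * B = ζ.re := by
    have : A * B = (‖ζ + 1‖ ^ 2 - ‖ζ - 1‖ ^ 2) / 4 := by rw [hA, hB]; ring
    rw [this, n1, n2]; ring
  have A2B2 : A ^ 2 + B ^ 2 = 1 + ζ.re ^ 2 + ζ.im ^ 2 := by
    have : A ^ 2 + B ^ 2 = (‖ζ + 1‖ ^ 2 + ‖ζ - 1‖ ^ 2) / 2 := by rw [hA, hB]; ring
    rw [this, n1, n2]; ring
  have hprod : (A ^ 2 - 1) * (1 - B ^ 2) = ζ.im ^ 2 := by
    have : (A ^ 2 - 1) * (1 - B ^ 2) = (A ^ 2 + B ^ 2) - 1 - (A * B) ^ 2 := by ring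
    rw [this, A2B2, AB]; ring
  have hpos : 0 < (A ^ 2 - 1) * (1 - B ^ 2) := by rw [hprod]; positivity
  have hAB : B ^ 2 ≤ A ^ 2 := by
    have : A ^ 2 - B ^ 2 = ‖ζ + 1‖ * ‖ζ - 1‖ := by rw [hA, hB]; ring
    nlinarith [mul_nonneg p1 p2]
  have hA1 : 1 < A ^ 2 := by
    by_contra hcon
    push Not at hcon
    nlinarith
  have hB1 : B ^ 2 < 1 := by
    by_contra hcon
    push Not at hcon
    nlinarith
  have hA0 : 0 ≤ A := by rw [hA]; positivity
  have hA' : 1 < A := by nlinarith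
  have hB' : -1 < B ∧ B < 1 := abs_lt.mp (by rwa [sq_lt_one_iff_abs_lt_one] at hB1)
  refine ⟨⟨Real.arcosh A, Real.arccos B⟩, ⟨?_, ?_, ?_⟩, ?_⟩
  · exact Real.arcosh_pos hA'
  · exact Real.arccos_pos.mpr hB'.2
  · have := Real.arccos_lt_pi.mpr hB'.1
    exact this
  · apply Complex.ext
    · rw [cosh_re]
      simp only
      rw [Real.cosh_arcosh hA'.le, Real.cos_arccos hB'.1.le hB'.2.le, AB]
    · rw [cosh_im]
      simp only
      rw [Real.sinh_arcosh hA'.le, Real.sin_arccos, ← Real.sqrt_mul (by linarith), hprod,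
        Real.sqrt_sq h.le]

/-- the map from the half strip to the sector -/
noncomputable def E (w : ℂ) : ℂ := (Complex.cosh w) ^ ((1:ℂ) / 4)

theorem cosh_im_pos {w : ℂ} (hw : w ∈ Strip) : 0 < (Complex.cosh w).im := by
  rw [cosh_im]
  exact mul_pos (Real.sinh_pos_iff.mpr hw.1) (Real.sin_pos_of_pos_of_lt_pi hw.2.1 hw.2.2)

theorem E_pow (w : ℂ) : E w ^ 4 = Complex.cosh w := by
  unfold E
  rw [← Complex.cpow_nat_mul]
  norm_num

theorem quarter_mem {ζ : ℂ} (h : 0 < ζ.im) : ζ ^ ((1:ℂ) / 4) ∈ Sec := by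
  have hζ : ζ ≠ 0 := by
    rintro rfl; simp at h
  have harg : 0 < ζ.arg ∧ ζ.arg < π := by
    constructor
    · rcases lt_trichotomy ζ.arg 0 with h' | h' | h'
      · exact absurd (Complex.arg_neg_iff.mp h') (by linarith)
      · have := (Complex.arg_eq_zero_iff.mp h').2
        linarith
      · exact h'
    · refine lt_of_le_of_ne (Complex.arg_le_pi ζ) ?_
      intro h'
      have := (Complex.arg_eq_pi_iff.mp h').2
      linarith
  have e : ζ ^ ((1:ℂ) / 4) =
      (Real.exp (Real.log ‖ζ‖ / 4) : ℂ) * Complex.exp ((ζ.arg / 4 : ℝ) * Complex.I) := by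
    rw [Complex.cpow_def_of_ne_zero hζ, Complex.ofReal_exp, ← Complex.exp_add, Complex.log]
    congr 1
    push_cast
    ring
  set r := Real.exp (Real.log ‖ζ‖ / 4) with hr
  have hr0 : 0 < r := Real.exp_pos _
  set θ := ζ.arg / 4 with hθ
  have hθ0 : 0 < θ := by rw [hθ]; linarith
  have hθ1 : θ < π / 4 := by rw [hθ]; linarith
  have hre : (ζ ^ ((1:ℂ) / 4)).re = r * Real.cos θ := by
    rw [e, Complex.re_ofReal_mul, Complex.exp_ofReal_mul_I_re]
  have him : (ζ ^ ((1:ℂ) / 4)).im = r * Real.sin θ := by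
    rw [e, Complex.im_ofReal_mul, Complex.exp_ofReal_mul_I_im]
  refine ⟨?_, ?_⟩
  · rw [him]
    exact mul_pos hr0 (Real.sin_pos_of_pos_of_lt_pi hθ0 (by linarith [Real.pi_pos]))
  · rw [him, hre]
    refine mul_lt_mul_of_pos_left ?_ hr0
    rw [← Real.sin_pi_div_two_sub]
    exact Real.sin_lt_sin_of_lt_of_le_pi_div_two (by linarith [Real.pi_pos])
      (by linarith [Real.pi_pos]) (by linarith)

theorem pow_four_inj {z z' : ℂ} (hz : z ∈ Sec) (hz' : z' ∈ Sec) (h : z ^ 4 = z' ^ 4) :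
    z = z' := by
  have h1 : (z ^ 2 - z' ^ 2) * (z ^ 2 + z' ^ 2) = 0 := by linear_combination h
  have im2 : ∀ u : ℂ, (u ^ 2).im = 2 * (u.re * u.im) := by
    intro u; rw [pow_two, Complex.mul_im]; ring
  have i1 : 0 < (z ^ 2).im := by
    rw [im2]; have := hz.1; have := hz.2; nlinarith
  have i2 : 0 < (z' ^ 2).im := by
    rw [im2]; have := hz'.1; have := hz'.2; nlinarith
  have h2 : z ^ 2 + z' ^ 2 ≠ 0 := by
    intro h0
    have := congrArg Complex.im h0
    rw [Complex.add_im, Complex.zero_im] at this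
    linarith
  have h3 : z ^ 2 - z' ^ 2 = 0 := (mul_eq_zero.mp h1).resolve_right h2
  have h4 : (z - z') * (z + z') = 0 := by linear_combination h3
  have h5 : z + z' ≠ 0 := by
    intro h0
    have := congrArg Complex.re h0
    rw [Complex.add_re, Complex.zero_re] at this
    have a := hz.1; have b := hz.2; have c := hz'.1; have d := hz'.2
    linarith
  exact sub_eq_zero.mp ((mul_eq_zero.mp h4).resolve_right h5)

theorem Sec_pow_im {z : ℂ} (hz : z ∈ Sec) : 0 < (z ^ 4).im := by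
  have e : (z ^ 4).im = 4 * (z.re * z.im) * (z.re ^ 2 - z.im ^ 2) := by
    have : z ^ 4 = (z * z) * (z * z) := by ring
    rw [this]
    simp only [Complex.mul_im, Complex.mul_re]
    ring
  rw [e]
  have h1 := hz.1
  have h2 := hz.2
  have : 0 < z.re ^ 2 - z.im ^ 2 := by nlinarith
  have : 0 < z.re := by linarith
  positivity

theorem E_mem {w : ℂ} (hw : w ∈ Strip) : E w ∈ Sec := quarter_mem (cosh_im_pos hw)

theorem E_injOn : Set.InjOn E Strip := by
  intro w hw w' hw' h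
  apply cosh_injOn hw hw'
  rw [← E_pow, ← E_pow, h]

theorem E_image : E '' Strip = Sec := by
  apply Set.Subset.antisymm
  · rintro _ ⟨w, hw, rfl⟩
    exact E_mem hw
  · intro z hz
    obtain ⟨w, hw, hwz⟩ := cosh_surj (z ^ 4) (Sec_pow_im hz)
    refine ⟨w, hw, ?_⟩
    apply pow_four_inj (E_mem hw) hz
    rw [E_pow, hwz]

theorem E_hasDerivAt {w : ℂ} (hw : w ∈ Strip) :
    HasDerivAt E (((1:ℂ) / 4) * (Complex.cosh w) ^ ((1:ℂ) / 4 - 1) * Complex.sinh w) w := by
  have hs : Complex.cosh w ∈ Complex.slitPlane := by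
    right
    exact (cosh_im_pos hw).ne'
  have h1 := (Complex.hasDerivAt_cosh w).cpow_const (c := (1:ℂ) / 4) hs
  exact h1

/-- the Jacobian density -/
noncomputable def Jac (w : ℂ) : ℝ :=
  (Real.sinh w.re ^ 2 + Real.sin w.im ^ 2) /
    (16 * (Real.sinh w.re ^ 2 + Real.cos w.im ^ 2) ^ ((3:ℝ) / 4))

theorem norm_deriv_sq {w : ℂ} (hw : w ∈ Strip) :
    Complex.normSq (((1:ℂ) / 4) * (Complex.cosh w) ^ ((1:ℂ) / 4 - 1) * Complex.sinh w) =
      Jac w := by
  have hc : Complex.cosh w ≠ 0 := by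
    intro h0
    have := cosh_im_pos hw
    rw [h0] at this
    simp at this
  have hn : 0 < ‖Complex.cosh w‖ := norm_pos_iff.mpr hc
  rw [Complex.normSq_mul, Complex.normSq_mul, normSq_sinh, ← Complex.sq_norm, ← Complex.sq_norm]
  have e1 : ‖Complex.cosh w ^ ((1:ℂ) / 4 - 1)‖ = ‖Complex.cosh w‖ ^ (-(3:ℝ) / 4) := by
    have : ((1:ℂ) / 4 - 1) = ((-(3:ℝ) / 4 : ℝ) : ℂ) := by push_cast; norm_num
    rw [this, Complex.norm_cpow_real]
  have e2 : Real.sinh w.re ^ 2 + Real.cos w.im ^ 2 = ‖Complex.cosh w‖ ^ 2 := by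
    rw [Complex.sq_norm, normSq_cosh]
  rw [e1, Jac, e2]
  have e3 : (‖Complex.cosh w‖ ^ 2) ^ ((3:ℝ) / 4) = ‖Complex.cosh w‖ ^ ((3:ℝ) / 2) := by
    rw [← Real.rpow_natCast, ← Real.rpow_mul hn.le]; norm_num
  have e4 : (‖Complex.cosh w‖ ^ (-(3:ℝ) / 4)) ^ 2 = (‖Complex.cosh w‖ ^ ((3:ℝ) / 2))⁻¹ := by
    rw [← Real.rpow_natCast, ← Real.rpow_mul hn.le, ← Real.rpow_neg hn.le]; norm_num
  rw [e3, e4]
  have : ‖(1:ℂ) / 4‖ ^ 2 = 1 / 16 := by norm_num
  rw [this]
  have hp : 0 < ‖Complex.cosh w‖ ^ ((3:ℝ) / 2) := Real.rpow_pos_of_pos hn _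
  field_simp

theorem measurableSet_Strip : MeasurableSet Strip := by
  have h : IsOpen Strip := by
    apply IsOpen.inter (isOpen_lt continuous_const Complex.continuous_re)
    exact IsOpen.inter (isOpen_lt continuous_const Complex.continuous_im)
      (isOpen_lt Complex.continuous_im continuous_const)
  exact h.measurableSet

theorem isOpen_Sec : IsOpen Sec :=
  IsOpen.inter (isOpen_lt continuous_const Complex.continuous_im)
    (isOpen_lt Complex.continuous_im Complex.continuous_re)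

theorem det_mul (c : ℂ) :
    (((ContinuousLinearMap.toSpanSingleton ℂ c : ℂ →L[ℂ] ℂ)).restrictScalars ℝ).det =
      Complex.normSq c := by
  rw [← Algebra.norm_complex_apply, Algebra.norm_apply, ContinuousLinearMap.det]
  congr 1
  ext <;> simp [mul_comm]

theorem E_hasFDerivWithinAt {w : ℂ} (hw : w ∈ Strip) :
    HasFDerivWithinAt E ((ContinuousLinearMap.toSpanSingleton ℂ
      (((1:ℂ) / 4) * (Complex.cosh w) ^ ((1:ℂ) / 4 - 1) * Complex.sinh w)).restrictScalars ℝ)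
      Strip w :=
  ((E_hasDerivAt hw).hasFDerivAt.restrictScalars ℝ).hasFDerivWithinAt

theorem Jac_nonneg (w : ℂ) : 0 ≤ Jac w := by
  unfold Jac
  positivity

theorem lintegral_Sec (F : ℂ → ENNReal) :
    ∫⁻ z in Sec, F z = ∫⁻ w in Strip, ENNReal.ofReal (Jac w) * F (E w) := by
  rw [← E_image, lintegral_image_eq_lintegral_abs_det_fderiv_mul volume measurableSet_Strip
    (fun w hw => E_hasFDerivWithinAt hw) E_injOn]
  refine setLIntegral_congr_fun measurableSet_Strip ?_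
  intro w hw
  simp only
  rw [det_mul, norm_deriv_sq hw, abs_of_nonneg (Jac_nonneg w)]

theorem integral_Sec (F : ℂ → ℝ) :
    ∫ z in Sec, F z = ∫ w in Strip, Jac w * F (E w) := by
  rw [← E_image, integral_image_eq_integral_abs_det_fderiv_smul volume measurableSet_Strip
    (fun w hw => E_hasFDerivWithinAt hw) E_injOn]
  refine setIntegral_congr_fun measurableSet_Strip ?_
  intro w hw
  simp only
  rw [det_mul, norm_deriv_sq hw, abs_of_nonneg (Jac_nonneg w), smul_eq_mul]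

theorem integrableOn_Sec (F : ℂ → ℝ) :
    IntegrableOn F Sec ↔ IntegrableOn (fun w => Jac w * F (E w)) Strip := by
  rw [← E_image, integrableOn_image_iff_integrableOn_abs_det_fderiv_smul volume
    measurableSet_Strip (fun w hw => E_hasFDerivWithinAt hw) E_injOn]
  refine integrableOn_congr_fun ?_ measurableSet_Strip
  intro w hw
  simp only
  rw [det_mul, norm_deriv_sq hw, abs_of_nonneg (Jac_nonneg w), smul_eq_mul]

end H30.LE
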