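import Mathlib

/-!
Sign lemma used in the certificate `T(1) < 0` (MP_7eb226_an):
for `|c| ≤ 1` the function `log |1 - c^2 / sin^2 η|` has mean zero on `(0, π)`, and its integral
against an increasing function of `sin^2 η` is nonpositive.
-/

open MeasureTheory Real

namespace H30.LE

theorem ii_log_sin_add (α : ℝ) (a b : ℝ) :
    IntervalIntegrable (fun η => log (sin (η + α))) volume a b := by
  have h := (intervalIntegrable_log_sin (a := a + α) (b := b + α)).comp_add_right α
  simpa using h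

theorem integral_log_sin_add (α : ℝ) :
    ∫ η in (0:ℝ)..π, log (sin (η + α)) = -log 2 * π := by
  have hper : Function.Periodic (fun x => log (sin x)) π := by
    intro x
    simp [sin_add_pi, log_neg_eq_log]
  have h1 : ∫ η in (0:ℝ)..π, log (sin (η + α)) = ∫ x in (0 + α)..(π + α), log (sin x) :=
    intervalIntegral.integral_comp_add_right (fun x => log (sin x)) α
  have h2 : ∫ x in α..(α + π), log (sin x) = ∫ x in (0:ℝ)..(0 + π), log (sin x) :=
    hper.intervalIntegral_add_eq α 0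
  rw [h1, zero_add, add_comm π α, h2, zero_add, integral_log_sin_zero_pi]

theorem countable_sin_eq_zero (α : ℝ) : {η : ℝ | sin (η + α) = 0}.Countable := by
  have : {η : ℝ | sin (η + α) = 0} ⊆ Set.range (fun n : ℤ => (n : ℝ) * π - α) := by
    intro η hη
    obtain ⟨n, hn⟩ := sin_eq_zero_iff.mp hη
    exact ⟨n, by simp only; linarith⟩
  exact (Set.countable_range _).mono this

theorem ae_sin_add_ne (α : ℝ) : ∀ᵐ η : ℝ, sin (η + α) ≠ 0 := by
  have h := (countable_sin_eq_zero α).measure_zero volume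
  exact measure_mono_null (fun η hη => by simpa using hη) h

theorem log_split (α : ℝ) : ∀ᵐ η : ℝ,
    log (1 - sin α ^ 2 / sin η ^ 2) =
      log (sin (η + α)) + log (sin (η + (-α))) - 2 * log (sin (η + 0)) := by
  filter_upwards [ae_sin_add_ne α, ae_sin_add_ne (-α), ae_sin_add_ne 0] with η h1 h2 h3
  rw [add_zero] at h3 ⊢
  have e : 1 - sin α ^ 2 / sin η ^ 2 = sin (η + α) * sin (η + (-α)) / sin η ^ 2 := by
    rw [← sub_eq_add_neg, sin_add, sin_sub]
    field_simp
    have c1 := sin_sq_add_cos_sq η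
    have c2 := sin_sq_add_cos_sq α
    have : cos η ^ 2 = 1 - sin η ^ 2 := by linarith
    have h' : cos α ^ 2 = 1 - sin α ^ 2 := by linarith
    ring_nf
    rw [this, h']
    ring
  rw [e, log_div (mul_ne_zero h1 h2) (pow_ne_zero 2 h3), log_mul h1 h2, log_pow]
  norm_num

theorem ii_log (c a b : ℝ) (hc : |c| ≤ 1) :
    IntervalIntegrable (fun η => log (1 - c ^ 2 / sin η ^ 2)) volume a b := by
  have hs : sin (arcsin c) = c := sin_arcsin (neg_le_of_abs_le hc) (le_of_abs_le hc)
  have h := log_split (arcsin c)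
  rw [hs] at h
  refine (((ii_log_sin_add (arcsin c) a b).add (ii_log_sin_add (-arcsin c) a b)).sub
    ((ii_log_sin_add 0 a b).const_mul 2)).congr_ae ?_
  exact (ae_restrict_of_ae (h.mono fun η hη => hη.symm))

theorem integral_log_zero (c : ℝ) (hc : |c| ≤ 1) :
    ∫ η in (0:ℝ)..π, log (1 - c ^ 2 / sin η ^ 2) = 0 := by
  have hs : sin (arcsin c) = c := sin_arcsin (neg_le_of_abs_le hc) (le_of_abs_le hc)
  have h := log_split (arcsin c)
  rw [hs] at h
  have e : ∫ η in (0:ℝ)..π, log (1 - c ^ 2 / sin η ^ 2) =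
      ∫ η in (0:ℝ)..π, (log (sin (η + arcsin c)) + log (sin (η + (-arcsin c)))
        - 2 * log (sin (η + 0))) :=
    intervalIntegral.integral_congr_ae (h.mono fun η hη _ => hη)
  rw [e, intervalIntegral.integral_sub
      ((ii_log_sin_add _ _ _).add (ii_log_sin_add _ _ _)) ((ii_log_sin_add 0 _ _).const_mul 2),
    intervalIntegral.integral_add (ii_log_sin_add _ _ _) (ii_log_sin_add _ _ _),
    intervalIntegral.integral_const_mul, integral_log_sin_add, integral_log_sin_add,
    integral_log_sin_add]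
  ring

/-- pointwise: `J(σ) log|1 - c²/σ| ≤ J(c²/2) log|1 - c²/σ|` -/
theorem pointwise_le (J : ℝ → ℝ) (hJ : MonotoneOn J (Set.Icc 0 1)) (c : ℝ) (hc : |c| ≤ 1)
    (σ : ℝ) (h0 : 0 < σ) (h1 : σ ≤ 1) :
    J σ * log (1 - c ^ 2 / σ) ≤ J (c ^ 2 / 2) * log (1 - c ^ 2 / σ) := by
  have hc2 : c ^ 2 ≤ 1 := by
    rw [← sq_abs]; exact pow_le_one₀ (abs_nonneg c) hc
  have hm : c ^ 2 / 2 ∈ Set.Icc (0:ℝ) 1 := ⟨by positivity, by linarith⟩
  have hσ : σ ∈ Set.Icc (0:ℝ) 1 := ⟨h0.le, h1⟩
  rcases le_total σ (c ^ 2 / 2) with h | h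
  · -- log ≥ 0
    have hJ' := hJ hσ hm h
    have hl : 0 ≤ log (1 - c ^ 2 / σ) := by
      have : 2 ≤ c ^ 2 / σ := by
        rw [le_div_iff₀ h0]; linarith
      rw [← log_neg_eq_log]
      exact log_nonneg (by linarith)
    exact mul_le_mul_of_nonneg_right hJ' hl
  · have hJ' := hJ hm hσ h
    have hl : log (1 - c ^ 2 / σ) ≤ 0 := by
      have h2 : c ^ 2 / σ ≤ 2 := by
        rw [div_le_iff₀ h0]; linarith
      have h3 : 0 ≤ c ^ 2 / σ := by positivity
      rw [← log_abs]
      exact log_nonpos (abs_nonneg _) (abs_le.mpr ⟨by linarith, by linarith⟩)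
    exact mul_le_mul_of_nonpos_right hJ' hl

/-- the sign lemma -/
theorem integral_weight_nonpos (J : ℝ → ℝ) (hJ : MonotoneOn J (Set.Icc 0 1)) (c : ℝ)
    (hc : |c| ≤ 1) :
    ∫ η in (0:ℝ)..π, J (sin η ^ 2) * log (1 - c ^ 2 / sin η ^ 2) ≤ 0 := by
  by_cases hint : IntervalIntegrable (fun η => J (sin η ^ 2) * log (1 - c ^ 2 / sin η ^ 2))
      volume 0 π
  · calc ∫ η in (0:ℝ)..π, J (sin η ^ 2) * log (1 - c ^ 2 / sin η ^ 2)
        ≤ ∫ η in (0:ℝ)..π, J (c ^ 2 / 2) * log (1 - c ^ 2 / sin η ^ 2) := by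
          refine intervalIntegral.integral_mono_ae_restrict pi_pos.le hint
            ((ii_log c 0 π hc).const_mul _) ?_
          refine ae_restrict_of_ae ?_
          filter_upwards [ae_sin_add_ne 0] with η h
          rw [add_zero] at h
          exact pointwise_le J hJ c hc _ (by positivity) (sin_sq_le_one η)
      _ = 0 := by
          rw [intervalIntegral.integral_const_mul, integral_log_zero c hc, mul_zero]
  · rw [intervalIntegral.integral_undef hint]

end H30.LE
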