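import Mathlib
import Pool.Agent.H30.LE.LogSin

/-!
The function `g(y) = ((1+y)^2 log|1+y| + (1-y)^2 log|1-y|)/2 - 3y^2/2` and its integral formula.
-/

open MeasureTheory Real

namespace H30.LE

/-- `g(y) = ((1+y)² log|1+y| + (1-y)² log|1-y|)/2 - 3y²/2` (note `Real.log = log|·|`) -/
noncomputable def g (y : ℝ) : ℝ :=
  ((1 + y) ^ 2 * log (1 + y) + (1 - y) ^ 2 * log (1 - y)) / 2 - 3 / 2 * y ^ 2

/-- the derivative of `g` -/
noncomputable def g1 (y : ℝ) : ℝ := (1 + y) * log (1 + y) - (1 - y) * log (1 - y) - 2 * y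

theorem continuous_g1 : Continuous g1 := by
  have h := Real.continuous_mul_log
  have h1 : Continuous fun y : ℝ => (1 + y) * log (1 + y) := h.comp (by fun_prop : Continuous fun y : ℝ => 1 + y)
  have h2 : Continuous fun y : ℝ => (1 - y) * log (1 - y) := h.comp (by fun_prop : Continuous fun y : ℝ => 1 - y)
  unfold g1
  fun_prop

theorem continuous_g : Continuous g := by
  have h := Real.continuous_mul_log
  have h1 : Continuous fun y : ℝ => (1 + y) * log (1 + y) := h.comp (by fun_prop : Continuous fun y : ℝ => 1 + y)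
  have h2 : Continuous fun y : ℝ => (1 - y) * log (1 - y) := h.comp (by fun_prop : Continuous fun y : ℝ => 1 - y)
  have e : g = fun y => ((1 + y) * ((1 + y) * log (1 + y)) + (1 - y) * ((1 - y) * log (1 - y))) / 2
      - 3 / 2 * y ^ 2 := by
    funext y; unfold g; ring
  rw [e]
  fun_prop

theorem hasDerivAt_g {y : ℝ} (h1 : y ≠ 1) (h2 : y ≠ -1) : HasDerivAt g (g1 y) y := by
  have ha : 1 + y ≠ 0 := fun h => h2 (by linarith)
  have hb : 1 - y ≠ 0 := fun h => h1 (by linarith)
  have d1 : HasDerivAt (fun y : ℝ => 1 + y) 1 y := by simpa using (hasDerivAt_id y).const_add 1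
  have d2 : HasDerivAt (fun y : ℝ => 1 - y) (-1) y := by simpa using (hasDerivAt_id y).const_sub 1
  have l1 := (d1.pow 2).mul (d1.log ha)
  have l2 := (d2.pow 2).mul (d2.log hb)
  have := (((l1.add l2).div_const 2).sub (((hasDerivAt_pow 2 y).const_mul (3/2))))
  refine (this.congr_deriv ?_)
  unfold g1
  field_simp
  simp
  ring

theorem hasDerivAt_g1 {y : ℝ} (h1 : y ≠ 1) (h2 : y ≠ -1) :
    HasDerivAt g1 (log (1 - y ^ 2)) y := by
  have ha : 1 + y ≠ 0 := fun h => h2 (by linarith)
  have hb : 1 - y ≠ 0 := fun h => h1 (by linarith)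
  have d1 : HasDerivAt (fun y : ℝ => 1 + y) 1 y := by simpa using (hasDerivAt_id y).const_add 1
  have d2 : HasDerivAt (fun y : ℝ => 1 - y) (-1) y := by simpa using (hasDerivAt_id y).const_sub 1
  have l1 := d1.mul (d1.log ha)
  have l2 := d2.mul (d2.log hb)
  have := ((l1.sub l2).sub ((hasDerivAt_id y).const_mul 2))
  refine (this.congr_deriv ?_)
  have e : 1 - y ^ 2 = (1 + y) * (1 - y) := by ring
  rw [e, log_mul ha hb]
  field_simp
  ring

theorem ii_log_one_sub (a b : ℝ) : IntervalIntegrable (fun s : ℝ => log (1 - s)) volume a b := by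
  have := (intervalIntegral.intervalIntegrable_log' (a := 1 - a) (b := 1 - b)).comp_sub_left 1
  simpa using this

theorem ii_log_one_add (a b : ℝ) : IntervalIntegrable (fun s : ℝ => log (1 + s)) volume a b := by
  have := (intervalIntegral.intervalIntegrable_log' (a := 1 + a) (b := 1 + b)).comp_add_left 1
  simpa using this

theorem ae_ne_pm : ∀ᵐ s : ℝ, s ≠ 1 ∧ s ≠ -1 := by
  have h1 : ∀ᵐ s : ℝ, s ≠ 1 := by
    have := measure_singleton (μ := (volume : Measure ℝ)) (1:ℝ)
    exact measure_mono_null (fun s hs => by simpa using hs) this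
  have h2 : ∀ᵐ s : ℝ, s ≠ -1 := by
    have := measure_singleton (μ := (volume : Measure ℝ)) (-1:ℝ)
    exact measure_mono_null (fun s hs => by simpa using hs) this
  filter_upwards [h1, h2] with s a b using ⟨a, b⟩

theorem ii_log_one_sub_sq (a b : ℝ) :
    IntervalIntegrable (fun s : ℝ => log (1 - s ^ 2)) volume a b := by
  refine ((ii_log_one_sub a b).add (ii_log_one_add a b)).congr_ae ?_
  refine ae_restrict_of_ae ?_
  filter_upwards [ae_ne_pm] with s hs
  have ha : 1 + s ≠ 0 := fun h => hs.2 (by linarith)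
  have hb : 1 - s ≠ 0 := fun h => hs.1 (by linarith)
  have e : 1 - s ^ 2 = (1 - s) * (1 + s) := by ring
  rw [e, log_mul hb ha]

theorem g_eq_integral (y : ℝ) (hy : 0 ≤ y) :
    g y = ∫ s in (0:ℝ)..y, (y - s) * log (1 - s ^ 2) := by
  have hc : ContinuousOn (fun s => (y - s) * g1 s + g s) (Set.Icc 0 y) := by
    have := continuous_g; have := continuous_g1
    fun_prop
  have hd : ∀ s ∈ Set.Ioo 0 y \ ({1, -1} : Set ℝ),
      HasDerivAt (fun s => (y - s) * g1 s + g s) ((y - s) * log (1 - s ^ 2)) s := by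
    intro s hs
    have h1 : s ≠ 1 := fun h => hs.2 (by simp [h])
    have h2 : s ≠ -1 := fun h => hs.2 (by simp [h])
    have d0 : HasDerivAt (fun s : ℝ => y - s) (-1) s := by simpa using (hasDerivAt_id s).const_sub y
    have := (d0.mul (hasDerivAt_g1 h1 h2)).add (hasDerivAt_g h1 h2)
    refine this.congr_deriv ?_
    ring
  have hi : IntervalIntegrable (fun s => (y - s) * log (1 - s ^ 2)) volume 0 y :=
    (ii_log_one_sub_sq 0 y).continuousOn_mul (by fun_prop)
  have := integral_eq_of_hasDerivAt_off_countable_of_le _ _ hy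
    (Set.Countable.insert _ (Set.countable_singleton _)) hc hd hi
  rw [this]
  simp [g, g1]

/-- rescaled version -/
theorem scaled_g_eq_integral (u c : ℝ) (hu : 0 < u) (hc : 0 ≤ c) :
    u ^ 2 * g (c / u) = ∫ s in (0:ℝ)..c, (c - s) * log (1 - s ^ 2 / u ^ 2) := by
  rw [g_eq_integral _ (div_nonneg hc hu.le)]
  have h := intervalIntegral.integral_comp_div (a := 0) (b := c)
    (fun t => (c / u - t) * log (1 - t ^ 2)) hu.ne'
  rw [zero_div] at h
  have e : ∫ s in (0:ℝ)..c, (c - s) * log (1 - s ^ 2 / u ^ 2) =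
      ∫ s in (0:ℝ)..c, u * ((c / u - s / u) * log (1 - (s / u) ^ 2)) := by
    congr 1
    funext s
    rw [div_pow]
    field_simp
  rw [e, intervalIntegral.integral_const_mul, h, smul_eq_mul]
  ring

end H30.LE
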