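import Mathlib
import Pool.Agent.H30.LE.GFun

/-!
The inner integrals `K_J(c) = ∫_0^π J(sin²η) sin²η g(c/sin η) dη`.
-/

open MeasureTheory Real

namespace H30.LE

/-- `f_s(η) = log |1 - s²/sin²η|` -/
noncomputable def fl (s η : ℝ) : ℝ := log (1 - s ^ 2 / sin η ^ 2)

noncomputable def LJ (J : ℝ → ℝ) (s : ℝ) : ℝ := ∫ η in (0:ℝ)..π, J (sin η ^ 2) * fl s η

noncomputable def KJ (J : ℝ → ℝ) (c : ℝ) : ℝ :=
  ∫ η in (0:ℝ)..π, J (sin η ^ 2) * (sin η ^ 2 * g (c / sin η))

theorem ae_good : ∀ᵐ η : ℝ, sin η ≠ 0 ∧ cos η ≠ 0 := by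
  filter_upwards [ae_sin_add_ne 0, ae_sin_add_ne (π/2)] with η h1 h2
  rw [add_zero] at h1
  rw [sin_add_pi_div_two] at h2
  exact ⟨h1, h2⟩

theorem fl_one_le (s : ℝ) (hs : 1 ≤ s) (η : ℝ) (h : sin η ≠ 0) (h' : cos η ≠ 0) :
    fl 1 η ≤ fl s η := by
  unfold fl
  have h0 : 0 < sin η ^ 2 := by positivity
  have hc : 0 < cos η ^ 2 := by positivity
  have h1 : sin η ^ 2 < 1 := by have := sin_sq_add_cos_sq η; linarith
  have h3 : 0 < 1 / sin η ^ 2 - 1 := by
    rw [sub_pos, lt_div_iff₀ h0]; linarith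
  rw [← log_neg_eq_log, ← log_neg_eq_log (1 - s ^ 2 / sin η ^ 2), neg_sub, neg_sub, one_pow]
  apply log_le_log h3
  have : 1 / sin η ^ 2 ≤ s ^ 2 / sin η ^ 2 := by
    have : 1 ≤ s ^ 2 := by nlinarith
    gcongr
  linarith

theorem fl_le (s : ℝ) (hs : 1 ≤ s) (η : ℝ) (h : sin η ≠ 0) (h' : cos η ≠ 0) :
    fl s η ≤ 2 * log s - 2 * log (sin η) := by
  unfold fl
  have h0 : 0 < sin η ^ 2 := by positivity
  have hc : 0 < cos η ^ 2 := by positivity
  have h1 : sin η ^ 2 < 1 := by have := sin_sq_add_cos_sq η; linarith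
  have hs2 : 1 ≤ s ^ 2 := by nlinarith
  have h3 : 0 < s ^ 2 / sin η ^ 2 - 1 := by
    rw [sub_pos, lt_div_iff₀ h0]; linarith
  rw [← log_neg_eq_log (1 - s ^ 2 / sin η ^ 2), neg_sub]
  calc log (s ^ 2 / sin η ^ 2 - 1) ≤ log (s ^ 2 / sin η ^ 2) := log_le_log h3 (by linarith)
    _ = 2 * log s - 2 * log (sin η) := by
      rw [log_div (by positivity) (by positivity), log_pow, log_pow]
      norm_num

theorem measurable_fl (s : ℝ) : Measurable (fl s) := by
  unfold fl
  fun_prop

theorem measurable_fl2 : Measurable (fun p : ℝ × ℝ => fl p.1 p.2) := by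
  unfold fl
  fun_prop

theorem ii_log_sin0 (a b : ℝ) : IntervalIntegrable (fun η => log (sin η)) volume a b := by
  simpa using ii_log_sin_add 0 a b

theorem ii_fl (s : ℝ) (hs : 0 ≤ s) : IntervalIntegrable (fl s) volume 0 π := by
  rcases le_total s 1 with h | h
  · exact ii_log s 0 π (by rw [abs_of_nonneg hs]; exact h)
  · have h1 : IntervalIntegrable (fl 1) volume 0 π := ii_log 1 0 π (by simp)
    have h2 : IntervalIntegrable (fun η => 2 * log s - 2 * log (sin η)) volume 0 π :=
      (intervalIntegrable_const).sub ((ii_log_sin0 0 π).const_mul 2)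
    have h3 : IntervalIntegrable (fun η => |fl 1 η| + |2 * log s - 2 * log (sin η)|) volume 0 π :=
      h1.abs.add h2.abs
    refine h3.mono_fun' (measurable_fl s).aestronglyMeasurable ?_
    refine ae_restrict_of_ae ?_
    filter_upwards [ae_good] with η hη
    have a := fl_one_le s h η hη.1 hη.2
    have b := fl_le s h η hη.1 hη.2
    rw [Real.norm_eq_abs, abs_le]
    constructor
    · have := neg_abs_le (fl 1 η)
      have := abs_nonneg (2 * log s - 2 * log (sin η))
      linarith
    · have := le_abs_self (2 * log s - 2 * log (sin η))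
      have := abs_nonneg (fl 1 η)
      linarith

theorem integral_fl_nonneg (s : ℝ) (hs : 0 ≤ s) : 0 ≤ ∫ η in (0:ℝ)..π, fl s η := by
  rcases le_total s 1 with h | h
  · have := integral_log_zero s (by rw [abs_of_nonneg hs]; exact h)
    unfold fl
    rw [this]
  · have h0 : ∫ η in (0:ℝ)..π, fl 1 η = 0 := integral_log_zero 1 (by simp)
    have h1 : ∫ η in (0:ℝ)..π, fl 1 η ≤ ∫ η in (0:ℝ)..π, fl s η := by
      refine intervalIntegral.integral_mono_ae_restrict pi_pos.le (ii_fl 1 zero_le_one)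
        (ii_fl s hs) ?_
      refine ae_restrict_of_ae ?_
      filter_upwards [ae_good] with η hη
      exact fl_one_le s h η hη.1 hη.2
    rw [h0] at h1
    exact h1

/-- dominating function of the negative part -/
noncomputable def nphi (α η : ℝ) : ℝ := -log (sin (η + α)) - log (sin (η + (-α)))

theorem log_sin_nonpos (x : ℝ) : log (sin x) ≤ 0 := by
  rw [← log_abs]
  exact log_nonpos (abs_nonneg _) (abs_sin_le_one x)

theorem nphi_nonneg (α η : ℝ) : 0 ≤ nphi α η := by
  unfold nphi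
  have := log_sin_nonpos (η + α)
  have := log_sin_nonpos (η + (-α))
  linarith

theorem ii_nphi (α : ℝ) : IntervalIntegrable (nphi α) volume 0 π :=
  (ii_log_sin_add α 0 π).neg.sub (ii_log_sin_add (-α) 0 π)

theorem integral_nphi (α : ℝ) : ∫ η in (0:ℝ)..π, nphi α η = 2 * log 2 * π := by
  have e : ∫ η in (0:ℝ)..π, nphi α η =
      (∫ η in (0:ℝ)..π, -log (sin (η + α))) - ∫ η in (0:ℝ)..π, log (sin (η + (-α))) :=
    intervalIntegral.integral_sub (ii_log_sin_add α 0 π).neg (ii_log_sin_add (-α) 0 π)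
  rw [e, intervalIntegral.integral_neg, integral_log_sin_add, integral_log_sin_add]
  ring

theorem exists_nphi (s : ℝ) (hs : 0 ≤ s) : ∃ α, ∀ᵐ η : ℝ, -nphi α η ≤ fl s η := by
  have key : ∀ c : ℝ, |c| ≤ 1 → ∀ᵐ η : ℝ, -nphi (arcsin c) η ≤ fl c η := by
    intro c hc
    have h := log_split (arcsin c)
    rw [sin_arcsin (neg_le_of_abs_le hc) (le_of_abs_le hc)] at h
    filter_upwards [h] with η hη
    unfold fl nphi
    rw [hη]
    have := log_sin_nonpos (η + 0)
    linarith
  rcases le_total s 1 with h | h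
  · exact ⟨arcsin s, key s (by rw [abs_of_nonneg hs]; exact h)⟩
  · refine ⟨arcsin 1, ?_⟩
    filter_upwards [key 1 (by simp), ae_good] with η h1 h2
    exact h1.trans (fl_one_le s h η h2.1 h2.2)

theorem measurable_J {J : ℝ → ℝ} (hJc : Continuous fun η : ℝ => J (sin η ^ 2)) :
    Measurable fun η : ℝ => J (sin η ^ 2) := hJc.measurable

theorem ii_J_fl {J : ℝ → ℝ} (hJc : Continuous fun η : ℝ => J (sin η ^ 2)) (s : ℝ) (hs : 0 ≤ s) :
    IntervalIntegrable (fun η => J (sin η ^ 2) * fl s η) volume 0 π :=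
  (ii_fl s hs).continuousOn_mul hJc.continuousOn

theorem LJ_lower {J : ℝ → ℝ} (hJ : MonotoneOn J (Set.Icc 0 1)) (h0 : 0 ≤ J 0)
    (hJc : Continuous fun η : ℝ => J (sin η ^ 2)) (s : ℝ) (hs : 0 ≤ s) :
    -((J 1 - J 0) * (2 * log 2 * π)) ≤ LJ J s := by
  obtain ⟨α, hα⟩ := exists_nphi s hs
  have hmem : ∀ η : ℝ, sin η ^ 2 ∈ Set.Icc (0:ℝ) 1 := fun η => ⟨sq_nonneg _, sin_sq_le_one η⟩
  have m0 : (0:ℝ) ∈ Set.Icc (0:ℝ) 1 := ⟨le_refl _, zero_le_one⟩
  have m1 : (1:ℝ) ∈ Set.Icc (0:ℝ) 1 := ⟨zero_le_one, le_refl _⟩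
  have h1 : ∫ η in (0:ℝ)..π, (J 0 * fl s η - (J 1 - J 0) * nphi α η) ≤ LJ J s := by
    refine intervalIntegral.integral_mono_ae_restrict pi_pos.le
      (((ii_fl s hs).const_mul _).sub ((ii_nphi α).const_mul _)) (ii_J_fl hJc s hs) ?_
    refine ae_restrict_of_ae ?_
    filter_upwards [hα] with η hη
    have a := hJ m0 (hmem η) (hmem η).1
    have b := hJ (hmem η) m1 (hmem η).2
    have c := nphi_nonneg α η
    have d : (J (sin η ^ 2) - J 0) * (-nphi α η) ≤ (J (sin η ^ 2) - J 0) * fl s η :=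
      mul_le_mul_of_nonneg_left hη (by linarith)
    have e : (J (sin η ^ 2) - J 0) * nphi α η ≤ (J 1 - J 0) * nphi α η :=
      mul_le_mul_of_nonneg_right (by linarith) c
    nlinarith
  have h2 : ∫ η in (0:ℝ)..π, (J 0 * fl s η - (J 1 - J 0) * nphi α η) =
      J 0 * (∫ η in (0:ℝ)..π, fl s η) - (J 1 - J 0) * (2 * log 2 * π) := by
    rw [intervalIntegral.integral_sub ((ii_fl s hs).const_mul _) ((ii_nphi α).const_mul _),
      intervalIntegral.integral_const_mul, intervalIntegral.integral_const_mul, integral_nphi]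
  rw [h2] at h1
  have := mul_nonneg h0 (integral_fl_nonneg s hs)
  linarith

theorem LJ_nonpos {J : ℝ → ℝ} (hJ : MonotoneOn J (Set.Icc 0 1)) (s : ℝ) (hs : 0 ≤ s)
    (hs1 : s ≤ 1) : LJ J s ≤ 0 :=
  integral_weight_nonpos J hJ s (by rw [abs_of_nonneg hs]; exact hs1)

/-- strict version -/
theorem LJ_neg {J : ℝ → ℝ} (hJ : StrictMonoOn J (Set.Icc 0 1))
    (hJc : Continuous fun η : ℝ => J (sin η ^ 2)) (s : ℝ) (hs : 0 < s)
    (hs1 : s ≤ 1) : LJ J s < 0 := by
  have habs : |s| ≤ 1 := by rw [abs_of_pos hs]; exact hs1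
  have h0 : LJ J s = ∫ η in (0:ℝ)..π, (J (sin η ^ 2) - J (s ^ 2 / 2)) * fl s η := by
    have : ∫ η in (0:ℝ)..π, (J (sin η ^ 2) - J (s ^ 2 / 2)) * fl s η =
        ∫ η in (0:ℝ)..π, (J (sin η ^ 2) * fl s η - J (s ^ 2 / 2) * fl s η) := by
      congr 1; funext η; ring
    rw [this, intervalIntegral.integral_sub (ii_J_fl hJc s hs.le) ((ii_fl s hs.le).const_mul _),
      intervalIntegral.integral_const_mul]
    have e := integral_log_zero s habs
    change ∫ η in (0:ℝ)..π, fl s η = 0 at e
    rw [e, mul_zero, sub_zero, LJ]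
  have hi : IntervalIntegrable (fun η => (J (sin η ^ 2) - J (s ^ 2 / 2)) * fl s η) volume 0 π := by
    have := (ii_J_fl hJc s hs.le).sub ((ii_fl s hs.le).const_mul (J (s ^ 2 / 2)))
    refine this.congr (fun η _ => ?_)
    ring
  rw [h0]
  have hneg : 0 < ∫ η in (0:ℝ)..π, -((J (sin η ^ 2) - J (s ^ 2 / 2)) * fl s η) := by
    have hi' : IntervalIntegrable (fun η => -((J (sin η ^ 2) - J (s ^ 2 / 2)) * fl s η))
        volume 0 π := hi.neg
    rw [intervalIntegral.integral_pos_iff_support_of_nonneg_ae' ?_ hi']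
    · refine ⟨pi_pos, ?_⟩
      -- the support contains a.e. point
      have hsub : Set.Ioc (0:ℝ) π \
          {η | sin η = 0 ∨ sin η ^ 2 = s ^ 2 / 2 ∨ sin η ^ 2 = s ^ 2} ⊆
          Function.support (fun η => -((J (sin η ^ 2) - J (s ^ 2 / 2)) * fl s η)) ∩ Set.Ioc 0 π := by
        rintro η ⟨hη, hη'⟩
        simp only [Set.mem_ofPred_eq, not_or] at hη'
        obtain ⟨n1, n2, n3⟩ := hη'
        refine ⟨?_, hη⟩
        rw [Function.mem_support, neg_ne_zero]
        have hp : 0 < sin η ^ 2 := by positivity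
        have hmem : sin η ^ 2 ∈ Set.Icc (0:ℝ) 1 := ⟨sq_nonneg _, sin_sq_le_one η⟩
        have hm : s ^ 2 / 2 ∈ Set.Icc (0:ℝ) 1 := ⟨by positivity, by nlinarith⟩
        apply mul_ne_zero
        · intro h
          exact n2 (hJ.injOn hmem hm (by linarith))
        · unfold fl
          have q : s ^ 2 / sin η ^ 2 ≠ 2 := by
            intro h; rw [div_eq_iff hp.ne'] at h; apply n2; linarith
          have q0 : s ^ 2 / sin η ^ 2 ≠ 0 := by positivity
          have q1 : s ^ 2 / sin η ^ 2 ≠ 1 := by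
            intro h; rw [div_eq_iff hp.ne'] at h; apply n3; linarith
          intro h
          rcases log_eq_zero.mp h with h | h | h
          · apply q1; linarith
          · apply q0; linarith
          · apply q; linarith
      refine lt_of_lt_of_le ?_ (measure_mono hsub)
      have hnull : volume {η : ℝ | sin η = 0 ∨ sin η ^ 2 = s ^ 2 / 2 ∨ sin η ^ 2 = s ^ 2} = 0 := by
        have hcount : ∀ t : ℝ, 0 ≤ t → volume {η : ℝ | sin η ^ 2 = t ^ 2} = 0 := by
          intro t ht
          have hsub2 : {η : ℝ | sin η ^ 2 = t ^ 2} ⊆ {η | sin (η + arcsin t) = 0} ∪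
              {η | sin (η + (-arcsin t)) = 0} := by
            intro η hη
            simp only [Set.mem_ofPred_eq] at hη
            have ht1 : |t| ≤ 1 := by
              have h1 := sin_sq_le_one η
              rw [hη] at h1
              exact (sq_le_one_iff_abs_le_one t).mp h1
            have hst := sin_arcsin (neg_le_of_abs_le ht1) (le_of_abs_le ht1)
            have hprod : sin (η + arcsin t) * sin (η + (-arcsin t)) = 0 := by
              rw [← sub_eq_add_neg, sin_add, sin_sub]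
              have c1 := sin_sq_add_cos_sq η
              have c2 := sin_sq_add_cos_sq (arcsin t)
              rw [hst] at c2
              rw [hst]
              have e1 : cos η ^ 2 = 1 - t ^ 2 := by linarith
              have e2 : cos (arcsin t) ^ 2 = 1 - t ^ 2 := by linarith
              ring_nf
              rw [hη, e1, e2]
              ring
            rcases mul_eq_zero.mp hprod with h | h
            · exact Or.inl h
            · exact Or.inr h
          refine measure_mono_null hsub2 ?_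
          rw [measure_union_null_iff]
          exact ⟨(countable_sin_eq_zero _).measure_zero _, (countable_sin_eq_zero _).measure_zero _⟩
        have e : {η : ℝ | sin η = 0 ∨ sin η ^ 2 = s ^ 2 / 2 ∨ sin η ^ 2 = s ^ 2} ⊆
            {η : ℝ | sin η ^ 2 = (0:ℝ) ^ 2} ∪ ({η : ℝ | sin η ^ 2 = (s / √2) ^ 2} ∪
              {η : ℝ | sin η ^ 2 = s ^ 2}) := by
          rintro η (h | h | h)
          · left; simp [h]
          · right; left
            simp only [Set.mem_ofPred_eq]
            rw [h, div_pow, Real.sq_sqrt (by norm_num)]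
          · right; right; exact h
        refine measure_mono_null e ?_
        rw [measure_union_null_iff, measure_union_null_iff]
        exact ⟨hcount 0 le_rfl, hcount _ (by positivity), hcount s hs.le⟩
      rw [measure_sdiff_null hnull, Real.volume_Ioc]
      simp [pi_pos]
    · have hae : ∀ᵐ η : ℝ, (0 : ℝ → ℝ) η ≤ -((J (sin η ^ 2) - J (s ^ 2 / 2)) * fl s η) := by
        filter_upwards [ae_sin_add_ne 0] with η h
        rw [add_zero] at h
        have := pointwise_le J hJ.monotoneOn s habs (sin η ^ 2) (by positivity) (sin_sq_le_one η)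
        simp only [Pi.zero_apply]
        unfold fl
        nlinarith
      exact ae_restrict_of_ae hae
  rw [intervalIntegral.integral_neg] at hneg
  linarith

end H30.LE
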