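import Mathlib
import Pool.Agent.H30.LE.KJ

/-!
Fubini for `K_J(c) = ∫_0^c (c - s) L_J(s) ds` and its consequences.
-/

open MeasureTheory Real

namespace H30.LE

theorem abs_log_shift_bound (c a : ℝ) (hc : 0 ≤ c) (ha : |a| ≤ 1) :
    ∫ s in (0:ℝ)..c, |log (a - s)| ≤ ∫ u in (-(c + 1))..(c + 1), |log u| := by
  have h1 : ∫ s in (0:ℝ)..c, |log (a - s)| = ∫ u in (a - c)..(a - 0), |log u| :=
    intervalIntegral.integral_comp_sub_left (fun u => |log u|) a
  rw [h1, sub_zero]
  have ha' := abs_le.mp ha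
  refine intervalIntegral.integral_mono_interval (by linarith) (by linarith) (by linarith) ?_ ?_
  · exact Filter.Eventually.of_forall fun u => abs_nonneg _
  · exact intervalIntegral.intervalIntegrable_log'.abs

theorem ii_log_const_sub (a x y : ℝ) :
    IntervalIntegrable (fun s : ℝ => log (a - s)) volume x y := by
  have := (intervalIntegral.intervalIntegrable_log' (a := a - x) (b := a - y)).comp_sub_left a
  simpa using this

/-- integrability on the product of `log (± sin η - s)` -/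
theorem integrable_prod_log (c : ℝ) (hc : 0 ≤ c) (e : ℝ) (he : |e| ≤ 1) :
    Integrable (fun p : ℝ × ℝ => log (e * sin p.2 - p.1))
      ((volume.restrict (Set.Ioc 0 c)).prod (volume.restrict (Set.Ioc 0 π))) := by
  have hm : Measurable (fun p : ℝ × ℝ => log (e * sin p.2 - p.1)) := by fun_prop
  rw [integrable_prod_iff' hm.aestronglyMeasurable]
  have hb : ∀ η : ℝ, |e * sin η| ≤ 1 := by
    intro η
    rw [abs_mul]
    exact mul_le_one₀ he (abs_nonneg _) (abs_sin_le_one η)
  constructor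
  · refine Filter.Eventually.of_forall fun η => ?_
    have := ii_log_const_sub (e * sin η) 0 c
    rwa [intervalIntegrable_iff_integrableOn_Ioc_of_le hc] at this
  · refine Integrable.mono' (integrable_const (∫ u in (-(c + 1))..(c + 1), |log u|)) ?_ ?_
    · have hs : StronglyMeasurable (fun q : ℝ × ℝ => ‖log (e * sin q.1 - q.2)‖) :=
        (Measurable.norm (by fun_prop)).stronglyMeasurable
      have h2 : StronglyMeasurable (fun η : ℝ =>
          ∫ s, ‖log (e * sin η - s)‖ ∂(volume.restrict (Set.Ioc 0 c))) :=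
        hs.integral_prod_right'
      exact h2.aestronglyMeasurable
    · refine Filter.Eventually.of_forall fun η => ?_
      have h1 := abs_log_shift_bound c (e * sin η) hc (hb η)
      rw [intervalIntegral.integral_of_le hc] at h1
      rw [Real.norm_eq_abs, abs_of_nonneg]
      · exact h1
      · exact integral_nonneg fun _ => norm_nonneg _

theorem integrable_prod_fl (c : ℝ) (hc : 0 ≤ c) :
    Integrable (fun p : ℝ × ℝ => fl p.1 p.2)
      ((volume.restrict (Set.Ioc 0 c)).prod (volume.restrict (Set.Ioc 0 π))) := by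
  have h1 := integrable_prod_log c hc 1 (by simp)
  have h2 := integrable_prod_log c hc (-1) (by simp)
  have h3 : Integrable (fun p : ℝ × ℝ => log (sin p.2))
      ((volume.restrict (Set.Ioc 0 c)).prod (volume.restrict (Set.Ioc 0 π))) := by
    have hη : Integrable (fun η : ℝ => log (sin η)) (volume.restrict (Set.Ioc 0 π)) := by
      have := ii_log_sin0 0 π
      rwa [intervalIntegrable_iff_integrableOn_Ioc_of_le pi_pos.le] at this
    exact hη.comp_snd _
  refine ((h1.add h2).sub (h3.const_mul 2)).congr ?_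
  -- a.e. equality
  have hA : ∀ᵐ p : ℝ × ℝ ∂((volume : Measure ℝ).prod (volume : Measure ℝ)), sin p.2 ≠ 0 := by
    have hnull : (volume : Measure ℝ) {η : ℝ | sin η = 0} = 0 := by
      have := (countable_sin_eq_zero 0).measure_zero volume
      simpa using this
    have : ((volume : Measure ℝ).prod (volume : Measure ℝ))
        (Set.univ ×ˢ {η : ℝ | sin η = 0}) = 0 := by
      rw [Measure.prod_prod, hnull, mul_zero]
    refine measure_mono_null ?_ this
    intro p hp
    simp only [Set.mem_prod, Set.mem_univ, true_and]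
    simpa using hp
  have hB : ∀ e : ℝ, ∀ᵐ p : ℝ × ℝ ∂((volume : Measure ℝ).prod (volume : Measure ℝ)),
      e * sin p.2 - p.1 ≠ 0 := by
    intro e
    have hmeas : MeasurableSet {p : ℝ × ℝ | e * sin p.2 - p.1 = 0} := by
      apply measurableSet_eq_fun <;> fun_prop
    have h0 : ((volume : Measure ℝ).prod (volume : Measure ℝ))
        {p : ℝ × ℝ | e * sin p.2 - p.1 = 0} = 0 := by
      rw [Measure.prod_apply_symm hmeas]
      have : ∀ y : ℝ, volume ((fun x : ℝ => (x, y)) ⁻¹' {p : ℝ × ℝ | e * sin p.2 - p.1 = 0}) = 0 := by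
        intro y
        refine measure_mono_null (t := {e * sin y}) ?_ (measure_singleton _)
        intro x hx
        simp only [Set.mem_preimage, Set.mem_ofPred_eq] at hx
        simp only [Set.mem_singleton_iff]
        linarith
      rw [lintegral_congr this, lintegral_zero]
    refine measure_mono_null ?_ h0
    intro p hp
    simpa using hp
  have hall : ∀ᵐ p : ℝ × ℝ ∂((volume : Measure ℝ).prod (volume : Measure ℝ)),
      log (1 * sin p.2 - p.1) + log (-1 * sin p.2 - p.1) - 2 * log (sin p.2) = fl p.1 p.2 := by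
    filter_upwards [hA, hB 1, hB (-1)] with p h1 h2 h3
    unfold fl
    have e : 1 - p.1 ^ 2 / sin p.2 ^ 2 =
        -((1 * sin p.2 - p.1) * (-1 * sin p.2 - p.1)) / sin p.2 ^ 2 := by
      field_simp
      ring
    rw [e, log_div (neg_ne_zero.mpr (mul_ne_zero h2 h3)) (pow_ne_zero 2 h1), log_neg_eq_log,
      log_mul h2 h3, log_pow]
    norm_num
  rw [Measure.prod_restrict]
  exact ae_restrict_of_ae hall

theorem integrable_prod_J {J : ℝ → ℝ} (hJc : Continuous fun η : ℝ => J (sin η ^ 2)) {M : ℝ}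
    (hM : ∀ η : ℝ, |J (sin η ^ 2)| ≤ M) (c : ℝ) (hc : 0 ≤ c) :
    Integrable (fun p : ℝ × ℝ => (c - p.1) * (J (sin p.2 ^ 2) * fl p.1 p.2))
      ((volume.restrict (Set.Ioc 0 c)).prod (volume.restrict (Set.Ioc 0 π))) := by
  have h1 := integrable_prod_fl c hc
  have hm : Measurable (fun p : ℝ × ℝ => (c - p.1) * J (sin p.2 ^ 2)) := by
    have h0 : Measurable (fun p : ℝ × ℝ => J (sin p.2 ^ 2)) := hJc.measurable.comp measurable_snd
    have h0' : Measurable (fun p : ℝ × ℝ => c - p.1) := by fun_prop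
    exact h0'.mul h0
  have h2 : Integrable (fun p : ℝ × ℝ => ((c - p.1) * J (sin p.2 ^ 2)) * fl p.1 p.2)
    ((volume.restrict (Set.Ioc 0 c)).prod (volume.restrict (Set.Ioc 0 π))) := by
    refine h1.bdd_mul (c := c * M) hm.aestronglyMeasurable ?_
    rw [Measure.prod_restrict]
    refine (ae_restrict_mem (measurableSet_Ioc.prod measurableSet_Ioc)).mono ?_
    intro p hp
    have hp1 := hp.1
    rw [Real.norm_eq_abs, abs_mul]
    have h3 : |c - p.1| ≤ c := by
      rw [abs_le]; constructor <;> linarith [hp1.1, hp1.2]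
    exact mul_le_mul h3 (hM _) (abs_nonneg _) hc
  refine h2.congr (Filter.Eventually.of_forall fun p => ?_)
  simp only
  ring

theorem KJ_inner {J : ℝ → ℝ} (c : ℝ) (hc : 0 ≤ c) : ∀ᵐ η : ℝ, η ∈ Set.Ioc 0 π →
    J (sin η ^ 2) * (sin η ^ 2 * g (c / sin η)) =
      ∫ s in Set.Ioc 0 c, (c - s) * (J (sin η ^ 2) * fl s η) := by
  filter_upwards [ae_sin_add_ne 0] with η h hη
  rw [add_zero] at h
  have hpos : 0 < sin η := by
    rcases eq_or_lt_of_le hη.2 with h' | h'
    · exact absurd (by rw [h']; exact sin_pi) h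
    · exact sin_pos_of_pos_of_lt_pi hη.1 h'
  rw [scaled_g_eq_integral (sin η) c hpos hc, intervalIntegral.integral_of_le hc,
    ← integral_const_mul]
  congr 1
  funext s
  unfold fl
  ring

theorem ii_KJ {J : ℝ → ℝ} (hJc : Continuous fun η : ℝ => J (sin η ^ 2)) {M : ℝ}
    (hM : ∀ η : ℝ, |J (sin η ^ 2)| ≤ M) (c : ℝ) (hc : 0 ≤ c) :
    IntervalIntegrable (fun η => J (sin η ^ 2) * (sin η ^ 2 * g (c / sin η))) volume 0 π := by
  rw [intervalIntegrable_iff_integrableOn_Ioc_of_le pi_pos.le]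
  have h := (integrable_prod_J hJc hM c hc).integral_prod_right
  refine h.congr ?_
  have h2 := KJ_inner (J := J) c hc
  rw [← ae_restrict_iff' measurableSet_Ioc] at h2
  filter_upwards [h2] with η hη
  exact hη.symm

theorem KJ_eq {J : ℝ → ℝ} (hJc : Continuous fun η : ℝ => J (sin η ^ 2)) {M : ℝ}
    (hM : ∀ η : ℝ, |J (sin η ^ 2)| ≤ M) (c : ℝ) (hc : 0 ≤ c) :
    KJ J c = ∫ s in (0:ℝ)..c, (c - s) * LJ J s := by
  have hint := integrable_prod_J hJc hM c hc
  have hsw := integral_integral_swap (f := fun s η => (c - s) * (J (sin η ^ 2) * fl s η)) hint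
  have hl : ∫ s in (0:ℝ)..c, (c - s) * LJ J s =
      ∫ s in Set.Ioc 0 c, ∫ η in Set.Ioc 0 π, (c - s) * (J (sin η ^ 2) * fl s η) := by
    rw [intervalIntegral.integral_of_le hc]
    congr 1
    funext s
    rw [LJ, intervalIntegral.integral_of_le pi_pos.le, integral_const_mul]
  have hr : KJ J c = ∫ η in Set.Ioc 0 π, ∫ s in Set.Ioc 0 c, (c - s) * (J (sin η ^ 2) * fl s η) := by
    rw [KJ, intervalIntegral.integral_of_le pi_pos.le]
    exact setIntegral_congr_ae measurableSet_Ioc (KJ_inner c hc)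
  rw [hl, hr, hsw]

theorem measurable_LJ {J : ℝ → ℝ} (hJc : Continuous fun η : ℝ => J (sin η ^ 2)) :
    StronglyMeasurable (LJ J) := by
  have hm : Measurable (fun p : ℝ × ℝ => J (sin p.2 ^ 2) * fl p.1 p.2) := by
    have : Measurable (fun p : ℝ × ℝ => J (sin p.2 ^ 2)) := hJc.measurable.comp measurable_snd
    exact this.mul measurable_fl2
  have := hm.stronglyMeasurable.integral_prod_right' (ν := volume.restrict (Set.Ioc 0 π))
  have e : LJ J = fun s => ∫ η in Set.Ioc 0 π, J (sin η ^ 2) * fl s η := by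
    funext s
    rw [LJ, intervalIntegral.integral_of_le pi_pos.le]
  rw [e]
  exact this

theorem ii_LJ {J : ℝ → ℝ} (hJc : Continuous fun η : ℝ => J (sin η ^ 2)) {M : ℝ}
    (hM : ∀ η : ℝ, |J (sin η ^ 2)| ≤ M) (c : ℝ) (hc : 0 ≤ c) :
    IntervalIntegrable (LJ J) volume 0 c := by
  rw [intervalIntegrable_iff_integrableOn_Ioc_of_le hc]
  have hint : Integrable (fun p : ℝ × ℝ => J (sin p.2 ^ 2) * fl p.1 p.2)
      ((volume.restrict (Set.Ioc 0 c)).prod (volume.restrict (Set.Ioc 0 π))) := by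
    have h1 := integrable_prod_fl c hc
    have hm : Measurable (fun p : ℝ × ℝ => J (sin p.2 ^ 2)) := hJc.measurable.comp measurable_snd
    exact h1.bdd_mul (c := M) hm.aestronglyMeasurable (Filter.Eventually.of_forall fun p => hM _)
  have := hint.integral_prod_left
  refine this.congr (Filter.Eventually.of_forall fun s => ?_)
  rw [LJ, intervalIntegral.integral_of_le pi_pos.le]

theorem KJ_nonpos {J : ℝ → ℝ} (hJ : MonotoneOn J (Set.Icc 0 1))
    (hJc : Continuous fun η : ℝ => J (sin η ^ 2)) {M : ℝ}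
    (hM : ∀ η : ℝ, |J (sin η ^ 2)| ≤ M) (c : ℝ) (hc : 0 ≤ c) (hc1 : c ≤ 1) : KJ J c ≤ 0 := by
  rw [KJ_eq hJc hM c hc, intervalIntegral.integral_of_le hc]
  refine setIntegral_nonpos measurableSet_Ioc fun s hs => ?_
  exact mul_nonpos_of_nonneg_of_nonpos (by linarith [hs.2])
    (LJ_nonpos hJ s hs.1.le (hs.2.trans hc1))

theorem KJ_neg {J : ℝ → ℝ} (hJ : StrictMonoOn J (Set.Icc 0 1))
    (hJc : Continuous fun η : ℝ => J (sin η ^ 2)) {M : ℝ}
    (hM : ∀ η : ℝ, |J (sin η ^ 2)| ≤ M) (c : ℝ) (hc : 0 < c) (hc1 : c ≤ 1) : KJ J c < 0 := by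
  rw [KJ_eq hJc hM c hc.le]
  have hi : IntervalIntegrable (fun s => (c - s) * LJ J s) volume 0 c :=
    (ii_LJ hJc hM c hc.le).continuousOn_mul (by fun_prop)
  have hi' : IntervalIntegrable (fun s => -((c - s) * LJ J s)) volume 0 c := hi.neg
  have hpos : 0 < ∫ s in (0:ℝ)..c, -((c - s) * LJ J s) := by
    apply intervalIntegral.intervalIntegral_pos_of_pos_on hi' ?_ hc
    intro s hs
    have := LJ_neg hJ hJc s hs.1 (hs.2.le.trans hc1)
    have : 0 < c - s := by linarith [hs.2]
    nlinarith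
  rw [intervalIntegral.integral_neg] at hpos
  linarith

theorem KJ_lower {J : ℝ → ℝ} (hJ : MonotoneOn J (Set.Icc 0 1)) (h0 : 0 ≤ J 0)
    (hJc : Continuous fun η : ℝ => J (sin η ^ 2)) {M : ℝ}
    (hM : ∀ η : ℝ, |J (sin η ^ 2)| ≤ M) (c : ℝ) (hc : 0 ≤ c) :
    -((J 1 - J 0) * (log 2 * π) * c ^ 2) ≤ KJ J c := by
  rw [KJ_eq hJc hM c hc]
  have hi : IntervalIntegrable (fun s => (c - s) * LJ J s) volume 0 c :=
    (ii_LJ hJc hM c hc).continuousOn_mul (by fun_prop)
  have h1 : ∫ s in (0:ℝ)..c, (c - s) * (-((J 1 - J 0) * (2 * log 2 * π))) ≤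
      ∫ s in (0:ℝ)..c, (c - s) * LJ J s := by
    refine intervalIntegral.integral_mono_on hc (by apply Continuous.intervalIntegrable; fun_prop) hi ?_
    intro s hs
    exact mul_le_mul_of_nonneg_left (LJ_lower hJ h0 hJc s hs.1) (by linarith [hs.2])
  refine le_trans (le_of_eq ?_) h1
  rw [intervalIntegral.integral_mul_const]
  have : ∫ s in (0:ℝ)..c, (c - s) = c ^ 2 / 2 := by
    rw [intervalIntegral.integral_sub (by simp) (by simp)]
    simp
    ring
  rw [this]
  ring

/-- for `y ≥ 2`: `g y ≥ y²(log y/2 - 3/2)` -/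
theorem g_lower (y : ℝ) (hy : 2 ≤ y) : y ^ 2 * (log y / 2 - 3 / 2) ≤ g y := by
  unfold g
  have h1 : log y ≤ log (1 + y) := log_le_log (by linarith) (by linarith)
  have h2 : 0 ≤ log (1 - y) := by
    rw [← log_neg_eq_log, neg_sub]
    exact log_nonneg (by linarith)
  have h3 : 0 ≤ log y := log_nonneg (by linarith)
  have h4 : y ^ 2 * log y ≤ (1 + y) ^ 2 * log (1 + y) := by
    apply mul_le_mul _ h1 h3 (by positivity)
    nlinarith
  have h5 : 0 ≤ (1 - y) ^ 2 * log (1 - y) := by positivity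
  nlinarith

theorem KJ_large {J : ℝ → ℝ} (hJ : MonotoneOn J (Set.Icc 0 1)) (h0 : 0 ≤ J 0)
    (hJc : Continuous fun η : ℝ => J (sin η ^ 2)) {M : ℝ}
    (hM : ∀ η : ℝ, |J (sin η ^ 2)| ≤ M) (c : ℝ) (hc : 2 ≤ c) (hc3 : 3 ≤ log c) :
    π * (J 0 * (c ^ 2 * (log c / 2 - 3 / 2))) ≤ KJ J c := by
  have h1 : ∫ η in (0:ℝ)..π, (J 0 * (c ^ 2 * (log c / 2 - 3 / 2))) ≤ KJ J c := by
    refine intervalIntegral.integral_mono_ae_restrict pi_pos.le (by simp)
      (ii_KJ hJc hM c (by linarith)) ?_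
    have : ∀ᵐ η : ℝ, η ∈ Set.Icc 0 π → J 0 * (c ^ 2 * (log c / 2 - 3 / 2)) ≤
        J (sin η ^ 2) * (sin η ^ 2 * g (c / sin η)) := by
      filter_upwards [ae_sin_add_ne 0] with η h hη
      rw [add_zero] at h
      have hpos : 0 < sin η := lt_of_le_of_ne (sin_nonneg_of_nonneg_of_le_pi hη.1 hη.2) (Ne.symm h)
      have hs1 := sin_le_one η
      have hy : c ≤ c / sin η := by
        rw [le_div_iff₀ hpos]; nlinarith
      have h2 := g_lower (c / sin η) (hc.trans hy)
      have h3 : log c ≤ log (c / sin η) := log_le_log (by linarith) hy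
      have h4 : c ^ 2 * (log c / 2 - 3 / 2) ≤ sin η ^ 2 * g (c / sin η) := by
        calc c ^ 2 * (log c / 2 - 3 / 2) ≤ c ^ 2 * (log (c / sin η) / 2 - 3 / 2) := by
              apply mul_le_mul_of_nonneg_left _ (by positivity); linarith
          _ = sin η ^ 2 * ((c / sin η) ^ 2 * (log (c / sin η) / 2 - 3 / 2)) := by
              field_simp
          _ ≤ _ := mul_le_mul_of_nonneg_left h2 (by positivity)
      have h5 : 0 ≤ c ^ 2 * (log c / 2 - 3 / 2) := by
        apply mul_nonneg (by positivity); linarith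
      have h6 : J 0 ≤ J (sin η ^ 2) :=
        hJ ⟨le_refl _, zero_le_one⟩ ⟨sq_nonneg _, sin_sq_le_one η⟩ (sq_nonneg _)
      exact mul_le_mul h6 h4 h5 (h0.trans h6)
    rw [← ae_restrict_iff' measurableSet_Icc] at this
    exact this
  rw [intervalIntegral.integral_const, sub_zero, smul_eq_mul] at h1
  exact h1

end H30.LE
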