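import Mathlib
import Pool.Agent.H30.LE.KJ2
import Pool.Agent.H30.LE.Ellip

/-!
The density `J_ξ(σ) = (S+σ)/(16 (S+1-σ)^{3/4})`, `S = sinh² ξ`, and elementary bounds.
-/

open MeasureTheory Real

namespace H30.LE

/-- density of the elliptic coordinates as a function of `σ = sin² η` -/
noncomputable def Jx (S σ : ℝ) : ℝ := (S + σ) / (16 * (S + 1 - σ) ^ ((3:ℝ) / 4))

theorem Jac_eq (w : ℂ) : Jac w = Jx (sinh w.re ^ 2) (sin w.im ^ 2) := by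
  unfold Jac Jx
  have : cos w.im ^ 2 = 1 - sin w.im ^ 2 := by have := sin_sq_add_cos_sq w.im; linarith
  rw [this]
  ring_nf

theorem Jx_strictMono {S : ℝ} (hS : 0 < S) : StrictMonoOn (Jx S) (Set.Icc 0 1) := by
  intro a ha b hb hab
  unfold Jx
  have h1 : 0 < S + 1 - b := by linarith [hb.2]
  have h2 : S + 1 - b < S + 1 - a := by linarith
  have h3 : (S + 1 - b) ^ ((3:ℝ) / 4) < (S + 1 - a) ^ ((3:ℝ) / 4) :=
    rpow_lt_rpow h1.le h2 (by norm_num)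
  have h4 : 0 < (S + 1 - b) ^ ((3:ℝ) / 4) := rpow_pos_of_pos h1 _
  have h5 : 0 < S + a := by linarith [ha.1]
  apply div_lt_div₀ (by linarith) (by linarith) (by linarith) (by linarith)

theorem Jx_continuous {S : ℝ} (hS : 0 < S) : Continuous fun η : ℝ => Jx S (sin η ^ 2) := by
  unfold Jx
  have h : ∀ η : ℝ, 0 < S + 1 - sin η ^ 2 := fun η => by have := sin_sq_le_one η; linarith
  apply Continuous.div (by fun_prop)
  · apply Continuous.mul continuous_const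
    apply Continuous.rpow_const (by fun_prop)
    intro η; left; exact (h η).ne'
  · intro η
    have := rpow_pos_of_pos (h η) ((3:ℝ)/4)
    positivity

theorem Jx_nonneg {S : ℝ} (hS : 0 < S) {σ : ℝ} (h : σ ∈ Set.Icc (0:ℝ) 1) : 0 ≤ Jx S σ := by
  unfold Jx
  have := h.1
  have := h.2
  have h1 : 0 < (S + 1 - σ) ^ ((3:ℝ) / 4) := rpow_pos_of_pos (by linarith) _
  positivity

theorem Jx_bdd {S : ℝ} (hS : 0 < S) (η : ℝ) : |Jx S (sin η ^ 2)| ≤ Jx S 1 := by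
  have hm : sin η ^ 2 ∈ Set.Icc (0:ℝ) 1 := ⟨sq_nonneg _, sin_sq_le_one η⟩
  rw [abs_of_nonneg (Jx_nonneg hS hm)]
  exact (Jx_strictMono hS).monotoneOn hm ⟨zero_le_one, le_refl _⟩ hm.2

/-- oscillation of the density -/
theorem Jx_osc {ξ : ℝ} (hξ : 0 < ξ) :
    Jx (sinh ξ ^ 2) 1 - Jx (sinh ξ ^ 2) 0 ≤ (7 / 32) * sinh ξ ^ (-(3:ℝ) / 2) := by
  have hs : 0 < sinh ξ := sinh_pos_iff.mpr hξ
  have hc : 0 < cosh ξ := cosh_pos ξ
  have hc2 : sinh ξ ^ 2 + 1 = cosh ξ ^ 2 := (cosh_sq ξ).symm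
  have e1 : Jx (sinh ξ ^ 2) 1 = cosh ξ ^ 2 / (16 * sinh ξ ^ ((3:ℝ) / 2)) := by
    unfold Jx
    rw [hc2]
    have : cosh ξ ^ 2 - 1 = sinh ξ ^ 2 := by linarith
    rw [this, ← rpow_natCast (sinh ξ), ← rpow_mul hs.le]
    norm_num
  have e0 : Jx (sinh ξ ^ 2) 0 = sinh ξ ^ 2 / (16 * cosh ξ ^ ((3:ℝ) / 2)) := by
    unfold Jx
    rw [sub_zero, add_zero, hc2, ← rpow_natCast (cosh ξ), ← rpow_mul hc.le]
    norm_num
  have hsr : 0 < sinh ξ ^ ((3:ℝ) / 2) := rpow_pos_of_pos hs _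
  have hcr : 0 < cosh ξ ^ ((3:ℝ) / 2) := rpow_pos_of_pos hc _
  have hsc : sinh ξ < cosh ξ := sinh_lt_cosh ξ
  -- c^{7/2} - s^{7/2} ≤ (7/2) c^{5/2} (c - s)
  have hmvt : cosh ξ ^ ((7:ℝ) / 2) - sinh ξ ^ ((7:ℝ) / 2) ≤
      (7 / 2) * cosh ξ ^ ((5:ℝ) / 2) * (cosh ξ - sinh ξ) := by
    have hconv : ConvexOn ℝ (Set.Ici 0) fun x : ℝ => x ^ ((7:ℝ) / 2) :=
      convexOn_rpow (by norm_num)
    have hd : HasDerivAt (fun x : ℝ => x ^ ((7:ℝ) / 2)) ((7/2) * cosh ξ ^ ((7:ℝ) / 2 - 1))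
        (cosh ξ) := by
      have := hasDerivAt_rpow_const (x := cosh ξ) (p := (7:ℝ)/2) (Or.inl hc.ne')
      exact this
    have := hconv.slope_le_of_hasDerivAt (x := sinh ξ) (y := cosh ξ) hs.le hc.le hsc hd
    rw [slope_def_field, div_le_iff₀ (by linarith)] at this
    have e : (7:ℝ) / 2 - 1 = 5 / 2 := by norm_num
    rw [e] at this
    exact this
  have hexp : cosh ξ * (cosh ξ - sinh ξ) ≤ 1 := by
    rw [cosh_sub_sinh, cosh_eq]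
    have h1 : exp ξ * exp (-ξ) = 1 := by rw [← exp_add]; simp
    have h2 : exp (-ξ) ≤ 1 := exp_le_one_iff.mpr (by linarith)
    have h3 : 0 < exp (-ξ) := exp_pos _
    nlinarith
  rw [e1, e0]
  have c72 : cosh ξ ^ ((7:ℝ) / 2) = cosh ξ ^ 2 * cosh ξ ^ ((3:ℝ) / 2) := by
    rw [← rpow_natCast (cosh ξ), ← rpow_add hc]; norm_num
  have s72 : sinh ξ ^ ((7:ℝ) / 2) = sinh ξ ^ 2 * sinh ξ ^ ((3:ℝ) / 2) := by
    rw [← rpow_natCast (sinh ξ), ← rpow_add hs]; norm_num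
  have c52 : cosh ξ ^ ((5:ℝ) / 2) = cosh ξ * cosh ξ ^ ((3:ℝ) / 2) := by
    nth_rewrite 2 [← rpow_one (cosh ξ)]
    rw [← rpow_add hc]; norm_num
  have hneg : sinh ξ ^ (-(3:ℝ) / 2) = 1 / sinh ξ ^ ((3:ℝ) / 2) := by
    rw [neg_div, rpow_neg hs.le, one_div]
  rw [hneg]
  rw [c72, s72, c52] at hmvt
  have key : cosh ξ ^ 2 * cosh ξ ^ ((3:ℝ) / 2) - sinh ξ ^ 2 * sinh ξ ^ ((3:ℝ) / 2) ≤
      (7 / 2) * cosh ξ ^ ((3:ℝ) / 2) := by
    refine hmvt.trans ?_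
    have := mul_le_mul_of_nonneg_right hexp hcr.le
    nlinarith
  have : cosh ξ ^ 2 / (16 * sinh ξ ^ ((3:ℝ) / 2)) - sinh ξ ^ 2 / (16 * cosh ξ ^ ((3:ℝ) / 2)) =
      (cosh ξ ^ 2 * cosh ξ ^ ((3:ℝ) / 2) - sinh ξ ^ 2 * sinh ξ ^ ((3:ℝ) / 2)) /
        (16 * sinh ξ ^ ((3:ℝ) / 2) * cosh ξ ^ ((3:ℝ) / 2)) := by
    field_simp
  rw [this, div_le_iff₀ (by positivity)]
  calc _ ≤ (7 / 2) * cosh ξ ^ ((3:ℝ) / 2) := key
    _ = _ := by field_simp; norm_num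

end H30.LE
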