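import Mathlib
import Pool.Agent.H30.LE.Jx

/-!
Integrable majorants in elliptic coordinates.
-/

open MeasureTheory Real

namespace H30.LE

theorem mul_cosh_le {ξ : ℝ} (hξ : 0 < ξ) : ξ * cosh ξ ≤ (1 + ξ) * sinh ξ := by
  have h1 : ξ ≤ sinh ξ := self_le_sinh_iff.mpr hξ.le
  have h2 : cosh ξ - sinh ξ = exp (-ξ) := cosh_sub_sinh ξ
  have h3 : exp (-ξ) ≤ 1 := exp_le_one_iff.mpr (by linarith)
  nlinarith

theorem sinh_ge {ξ : ℝ} (hξ : 0 < ξ) : exp ξ * (ξ / (1 + 2 * ξ)) ≤ sinh ξ := by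
  rw [sinh_eq]
  have h1 : 1 + 2 * ξ ≤ exp (2 * ξ) := by linarith [add_one_le_exp (2 * ξ)]
  have h2 : exp (-ξ) = exp ξ * (exp (2 * ξ))⁻¹ := by
    rw [← exp_neg, ← exp_add]; congr 1; ring
  have h3 : (exp (2 * ξ))⁻¹ ≤ (1 + 2 * ξ)⁻¹ := inv_anti₀ (by linarith) h1
  rw [h2]
  have h4 : 0 < exp ξ := exp_pos ξ
  have h5 : ξ / (1 + 2 * ξ) = (1 - (1 + 2 * ξ)⁻¹) / 2 := by
    field_simp; ring
  rw [h5]
  nlinarith

/-- `sinh^{-ρ}` bound -/
theorem sinh_rpow_neg_le {ξ ρ : ℝ} (hξ : 0 < ξ) (hρ : 0 ≤ ρ) (hρ1 : ρ ≤ 2) :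
    sinh ξ ^ (-ρ) ≤ exp (-ρ * ξ) * ξ ^ (-ρ) * (1 + 2 * ξ) ^ 2 := by
  have h := sinh_ge hξ
  have hpos : 0 < exp ξ * (ξ / (1 + 2 * ξ)) := by positivity
  calc sinh ξ ^ (-ρ) ≤ (exp ξ * (ξ / (1 + 2 * ξ))) ^ (-ρ) :=
        rpow_le_rpow_of_nonpos hpos h (by linarith)
    _ = exp (-ρ * ξ) * ξ ^ (-ρ) * (1 + 2 * ξ) ^ ρ := by
        rw [mul_rpow (exp_pos ξ).le (by positivity), div_rpow hξ.le (by positivity),
          ← exp_mul, rpow_neg (by positivity : (0:ℝ) ≤ 1 + 2 * ξ)]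
        field_simp
    _ ≤ _ := by
        apply mul_le_mul_of_nonneg_left _ (by positivity)
        calc (1 + 2 * ξ) ^ ρ ≤ (1 + 2 * ξ) ^ (2:ℝ) :=
              rpow_le_rpow_of_exponent_le (by linarith) hρ1
          _ = (1 + 2 * ξ) ^ 2 := by norm_num

theorem integrableOn_poly_exp {s b : ℝ} (hs : -1 < s) (hb : 0 < b) :
    IntegrableOn (fun ξ : ℝ => ξ ^ s * exp (-b * ξ)) (Set.Ioi 0) := by
  have := integrableOn_rpow_mul_exp_neg_mul_rpow (s := s) (p := 1) hs one_pos hb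
  simpa using this

/-- `ξ^s (1+2ξ)^k e^{-bξ}` integrable -/
theorem integrableOn_poly_exp' {s b : ℝ} (hs : -1 < s) (hb : 0 < b) (k : ℕ) :
    IntegrableOn (fun ξ : ℝ => ξ ^ s * (1 + 2 * ξ) ^ k * exp (-b * ξ)) (Set.Ioi 0) := by
  induction k generalizing s with
  | zero => simpa using integrableOn_poly_exp hs hb
  | succ k ih =>
    have h1 := ih hs
    have h2 := (ih (s := s + 1) (by linarith)).const_mul 2
    refine (h1.add h2).congr_fun ?_ measurableSet_Ioi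
    intro ξ hξ
    have hξ' : (0:ℝ) < ξ := hξ
    simp only [Pi.add_apply]
    rw [rpow_add_one hξ'.ne']
    ring

/-- the radial majorant -/
noncomputable def ar (r ξ : ℝ) : ℝ := ξ ^ ((11:ℝ) / 4) * cosh ξ ^ 2 * sinh ξ ^ (-(11:ℝ) / 8 - r)

theorem ar_le {r ξ : ℝ} (hξ : 0 < ξ) (hr : 5 / 8 ≤ r) (hr1 : r ≤ 7 / 8) :
    ar r ξ ≤ ξ ^ ((3:ℝ) / 4 - (r - 5 / 8)) * (1 + 2 * ξ) ^ 4 * exp (-(r - 5 / 8) * ξ) := by
  have hs : 0 < sinh ξ := sinh_pos_iff.mpr hξ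
  have h1 := mul_cosh_le hξ
  have h2 : (ξ * cosh ξ) ^ 2 ≤ ((1 + ξ) * sinh ξ) ^ 2 :=
    pow_le_pow_left₀ (mul_nonneg hξ.le (cosh_pos ξ).le) h1 2
  have e1 : ξ ^ ((11:ℝ) / 4) = ξ ^ ((3:ℝ) / 4) * ξ ^ 2 := by
    rw [← rpow_natCast ξ, ← rpow_add hξ]; norm_num
  have e2 : sinh ξ ^ (-(r - 5 / 8)) = sinh ξ ^ 2 * sinh ξ ^ (-(11:ℝ) / 8 - r) := by
    rw [← rpow_natCast (sinh ξ), ← rpow_add hs]; congr 1; push_cast; ring
  have hsr : 0 < sinh ξ ^ (-(11:ℝ) / 8 - r) := rpow_pos_of_pos hs _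
  have h3 := sinh_rpow_neg_le (ρ := r - 5 / 8) hξ (by linarith) (by linarith)
  calc ar r ξ = ξ ^ ((3:ℝ) / 4) * ((ξ * cosh ξ) ^ 2 * sinh ξ ^ (-(11:ℝ) / 8 - r)) := by
        unfold ar; rw [e1]; ring
    _ ≤ ξ ^ ((3:ℝ) / 4) * (((1 + ξ) * sinh ξ) ^ 2 * sinh ξ ^ (-(11:ℝ) / 8 - r)) := by
        gcongr
    _ = ξ ^ ((3:ℝ) / 4) * ((1 + ξ) ^ 2 * sinh ξ ^ (-(r - 5 / 8))) := by rw [e2]; ring
    _ ≤ ξ ^ ((3:ℝ) / 4) * ((1 + 2 * ξ) ^ 2 *
          (exp (-(r - 5 / 8) * ξ) * ξ ^ (-(r - 5 / 8)) * (1 + 2 * ξ) ^ 2)) := by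
        gcongr
        linarith
    _ = _ := by
        have : ξ ^ ((3:ℝ) / 4 - (r - 5 / 8)) = ξ ^ ((3:ℝ) / 4) * ξ ^ (-(r - 5 / 8)) := by
          rw [← rpow_add hξ]; congr 1
        rw [this]; ring

theorem measurable_ar (r : ℝ) : Measurable (ar r) := by
  unfold ar
  have h1 : Measurable Real.sinh := continuous_sinh.measurable
  have h2 : Measurable Real.cosh := continuous_cosh.measurable
  fun_prop

theorem ar_nonneg {r ξ : ℝ} (hξ : 0 < ξ) : 0 ≤ ar r ξ := by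
  unfold ar
  have hs : 0 < sinh ξ := sinh_pos_iff.mpr hξ
  positivity

theorem integrableOn_ar {r : ℝ} (hr : 5 / 8 < r) (hr1 : r ≤ 7 / 8) :
    IntegrableOn (ar r) (Set.Ioi 0) := by
  have h := integrableOn_poly_exp' (s := (3:ℝ) / 4 - (r - 5 / 8)) (b := r - 5 / 8)
    (by linarith) (by linarith) 4
  refine Integrable.mono' h (measurable_ar r).aestronglyMeasurable ?_
  refine (ae_restrict_mem measurableSet_Ioi).mono fun ξ hξ => ?_
  rw [Real.norm_eq_abs, abs_of_nonneg (ar_nonneg hξ)]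
  exact ar_le hξ hr.le hr1

/-- the angular majorant -/
noncomputable def br (r η : ℝ) : ℝ := |cos η| ^ (-(1:ℝ) / 8) * sin η ^ (-r)

theorem two_div_pi_mul_le {η : ℝ} (h0 : 0 ≤ η) (h1 : η ≤ π / 2) : 2 / π * η ≤ sin η :=
  mul_le_sin h0 h1

theorem ii_abs_sub_rpow (c s a b : ℝ) (hs : -1 < s) (hab : a ≤ b) :
    IntervalIntegrable (fun x : ℝ => |x - c| ^ s) volume a b := by
  have key : ∀ a b : ℝ, IntervalIntegrable (fun x : ℝ => |x| ^ s) volume a b := by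
    have h0 : ∀ b : ℝ, 0 ≤ b → IntervalIntegrable (fun x : ℝ => |x| ^ s) volume 0 b := by
      intro b hb
      refine (intervalIntegral.intervalIntegrable_rpow' hs (a := 0) (b := b)).congr ?_
      intro x hx
      rw [Set.uIoc_of_le hb] at hx
      simp only
      rw [abs_of_pos hx.1]
    have h1 : ∀ b : ℝ, IntervalIntegrable (fun x : ℝ => |x| ^ s) volume 0 b := by
      intro b
      rcases le_total 0 b with hb | hb
      · exact h0 b hb
      · have := (h0 (-b) (by linarith)).comp_sub_left 0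
        simpa using this
    intro a b
    exact (h1 a).symm.trans (h1 b)
  have := (key (a - c) (b - c)).comp_sub_right c
  simpa using this

theorem ii_sin_rpow {s : ℝ} (hs : -1 < s) (hs0 : s ≤ 0) :
    IntervalIntegrable (fun η : ℝ => |sin η| ^ s) volume 0 π := by
  have h1 := ((ii_abs_sub_rpow 0 s 0 π hs pi_pos.le).add
    (ii_abs_sub_rpow π s 0 π hs pi_pos.le)).const_mul ((2 / π) ^ s)
  refine h1.mono_fun' ((Real.continuous_sin.abs).measurable.pow_const s).aestronglyMeasurable ?_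
  rw [Filter.EventuallyLE, ae_restrict_iff' measurableSet_uIoc]
  have hae : ∀ᵐ η : ℝ, η ≠ π := by
    have := measure_singleton (μ := (volume : Measure ℝ)) π
    exact measure_mono_null (fun s hs => by simpa using hs) this
  filter_upwards [hae] with η hne hη
  rw [Set.uIoc_of_le pi_pos.le] at hη
  have hlt : η < π := lt_of_le_of_ne hη.2 hne
  have hsin : 0 < sin η := sin_pos_of_pos_of_lt_pi hη.1 hlt
  rw [Real.norm_eq_abs, abs_of_nonneg (by positivity), abs_of_pos hsin]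
  have p1 : 0 ≤ |η - 0| ^ s := by positivity
  have p2 : 0 ≤ |η - π| ^ s := by positivity
  have hc : (0:ℝ) < (2 / π) ^ s := by positivity
  rcases le_total η (π / 2) with h | h
  · have h2 : 2 / π * η ≤ sin η := mul_le_sin hη.1.le h
    have h3 : sin η ^ s ≤ (2 / π * η) ^ s :=
      rpow_le_rpow_of_nonpos (by have := hη.1; positivity) h2 hs0
    rw [mul_rpow (by positivity) hη.1.le] at h3
    rw [sub_zero, abs_of_pos hη.1] at *
    nlinarith
  · have h2 : 2 / π * (π - η) ≤ sin (π - η) := mul_le_sin (by linarith) (by linarith)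
    rw [sin_pi_sub] at h2
    have hp : 0 < π - η := by linarith
    have h3 : sin η ^ s ≤ (2 / π * (π - η)) ^ s :=
      rpow_le_rpow_of_nonpos (by positivity) h2 hs0
    rw [mul_rpow (by positivity) hp.le] at h3
    have e : |η - π| = π - η := by rw [abs_sub_comm, abs_of_pos hp]
    rw [e] at *
    nlinarith

theorem ii_cos_rpow {s : ℝ} (hs : -1 < s) (hs0 : s ≤ 0) :
    IntervalIntegrable (fun η : ℝ => |cos η| ^ s) volume 0 π := by
  have h1 := (ii_abs_sub_rpow (π / 2) s 0 π hs pi_pos.le).const_mul ((2 / π) ^ s)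
  refine h1.mono_fun' ((Real.continuous_cos.abs).measurable.pow_const s).aestronglyMeasurable ?_
  rw [Filter.EventuallyLE, ae_restrict_iff' measurableSet_uIoc]
  have hae : ∀ᵐ η : ℝ, η ≠ π / 2 := by
    have := measure_singleton (μ := (volume : Measure ℝ)) (π / 2)
    exact measure_mono_null (fun s hs => by simpa using hs) this
  filter_upwards [hae] with η hne hη
  rw [Set.uIoc_of_le pi_pos.le] at hη
  rw [Real.norm_eq_abs, abs_of_nonneg (by positivity)]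
  have key : 2 / π * |η - π / 2| ≤ |cos η| := by
    rcases le_total η (π / 2) with h | h
    · have h2 : 2 / π * (π / 2 - η) ≤ sin (π / 2 - η) := mul_le_sin (by linarith) (by linarith [hη.1])
      rw [sin_pi_div_two_sub] at h2
      rw [abs_sub_comm, abs_of_nonneg (by linarith : 0 ≤ π / 2 - η)]
      exact h2.trans (le_abs_self _)
    · have h2 : 2 / π * (η - π / 2) ≤ sin (η - π / 2) := mul_le_sin (by linarith) (by linarith [hη.2])
      rw [sin_sub_pi_div_two] at h2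
      rw [abs_of_nonneg (by linarith : 0 ≤ η - π / 2)]
      exact h2.trans (neg_le_abs _)
  have hpos : 0 < |η - π / 2| := abs_pos.mpr (sub_ne_zero.mpr hne)
  have h3 : |cos η| ^ s ≤ (2 / π * |η - π / 2|) ^ s :=
    rpow_le_rpow_of_nonpos (by positivity) key hs0
  rw [mul_rpow (by positivity) hpos.le] at h3
  exact h3

theorem integrableOn_br {r : ℝ} (hr0 : 0 ≤ r) (hr : r < 7 / 8) :
    IntegrableOn (br r) (Set.Ioo 0 π) := by
  have h1 := (ii_sin_rpow (s := -(r + 1/8)) (by linarith) (by linarith)).add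
    (ii_cos_rpow (s := -(r + 1/8)) (by linarith) (by linarith))
  rw [intervalIntegrable_iff_integrableOn_Ioo_of_le pi_pos.le] at h1
  have hm : Measurable (br r) := by unfold br; fun_prop
  refine Integrable.mono' h1 hm.aestronglyMeasurable ?_
  refine (ae_restrict_iff' measurableSet_Ioo).mpr ?_
  filter_upwards [ae_good] with η hg hη
  have hsin : 0 < sin η := sin_pos_of_pos_of_lt_pi hη.1 hη.2
  have hcos : 0 < |cos η| := abs_pos.mpr hg.2
  unfold br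
  rw [Real.norm_eq_abs, abs_of_nonneg (by positivity)]
  simp only [abs_of_pos hsin]
  -- x^{-1/8} y^{-r} ≤ x^{-(r+1/8)} + y^{-(r+1/8)}
  rcases le_total (|cos η|) (sin η) with h | h
  · have h1 : sin η ^ (-r) ≤ |cos η| ^ (-r) := rpow_le_rpow_of_nonpos hcos h (by linarith)
    have h2 : |cos η| ^ (-(1:ℝ)/8) * sin η ^ (-r) ≤ |cos η| ^ (-(1:ℝ)/8) * |cos η| ^ (-r) := by
      gcongr
    have h3 : |cos η| ^ (-(1:ℝ)/8) * |cos η| ^ (-r) = |cos η| ^ (-(r + 1/8)) := by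
      rw [← rpow_add hcos]; congr 1; ring
    have : 0 ≤ sin η ^ (-(r + 1/8)) := by positivity
    linarith
  · have h1 : |cos η| ^ (-(1:ℝ)/8) ≤ sin η ^ (-(1:ℝ)/8) :=
      rpow_le_rpow_of_nonpos hsin h (by norm_num)
    have h2 : |cos η| ^ (-(1:ℝ)/8) * sin η ^ (-r) ≤ sin η ^ (-(1:ℝ)/8) * sin η ^ (-r) := by
      gcongr
    have h3 : sin η ^ (-(1:ℝ)/8) * sin η ^ (-r) = sin η ^ (-(r + 1/8)) := by
      rw [← rpow_add hsin]; congr 1; ring
    have : 0 ≤ |cos η| ^ (-(r + 1/8)) := by positivity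
    linarith

/-- upper bound of the density -/
theorem Jx_upper {ξ η : ℝ} (hξ : 0 < ξ) (hc : cos η ≠ 0) :
    Jx (sinh ξ ^ 2) (sin η ^ 2) ≤ cosh ξ ^ 2 * sinh ξ ^ (-(11:ℝ) / 8) * |cos η| ^ (-(1:ℝ) / 8) := by
  have hs : 0 < sinh ξ := sinh_pos_iff.mpr hξ
  have hcc : 0 < |cos η| := abs_pos.mpr hc
  have e0 : sinh ξ ^ 2 + 1 - sin η ^ 2 = sinh ξ ^ 2 + cos η ^ 2 := by
    have := sin_sq_add_cos_sq η; linarith
  have hcos2 : 0 < cos η ^ 2 := by positivity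
  have hS : 0 < sinh ξ ^ 2 := by positivity
  have h1 : (sinh ξ ^ 2) ^ ((11:ℝ) / 16) * (cos η ^ 2) ^ ((1:ℝ) / 16) ≤
      (sinh ξ ^ 2 + cos η ^ 2) ^ ((3:ℝ) / 4) := by
    calc (sinh ξ ^ 2) ^ ((11:ℝ) / 16) * (cos η ^ 2) ^ ((1:ℝ) / 16) ≤
        (sinh ξ ^ 2 + cos η ^ 2) ^ ((11:ℝ) / 16) * (sinh ξ ^ 2 + cos η ^ 2) ^ ((1:ℝ) / 16) := by
          gcongr <;> linarith
      _ = _ := by rw [← rpow_add (by positivity)]; norm_num
  have e1 : (sinh ξ ^ 2) ^ ((11:ℝ) / 16) = sinh ξ ^ ((11:ℝ) / 8) := by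
    rw [← rpow_natCast, ← rpow_mul hs.le]; norm_num
  have e2 : (cos η ^ 2) ^ ((1:ℝ) / 16) = |cos η| ^ ((1:ℝ) / 8) := by
    rw [← sq_abs, ← rpow_natCast, ← rpow_mul hcc.le]; norm_num
  rw [e1, e2] at h1
  have hp1 : 0 < sinh ξ ^ ((11:ℝ) / 8) := rpow_pos_of_pos hs _
  have hp2 : 0 < |cos η| ^ ((1:ℝ) / 8) := rpow_pos_of_pos hcc _
  unfold Jx
  rw [e0]
  have h2 : sinh ξ ^ 2 + sin η ^ 2 ≤ cosh ξ ^ 2 := by
    rw [cosh_sq]; have := sin_sq_le_one η; linarith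
  have h3 : (sinh ξ ^ 2 + sin η ^ 2) / (16 * (sinh ξ ^ 2 + cos η ^ 2) ^ ((3:ℝ) / 4)) ≤
      cosh ξ ^ 2 / (sinh ξ ^ ((11:ℝ) / 8) * |cos η| ^ ((1:ℝ) / 8)) := by
    apply div_le_div₀ (by positivity) h2 (by positivity)
    have := mul_pos hp1 hp2
    linarith
  refine h3.trans (le_of_eq ?_)
  rw [neg_div, neg_div, rpow_neg hs.le, rpow_neg hcc.le]
  field_simp

end H30.LE
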