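import Mathlib

/-!
Generic facts on `L²` limits.
-/

open MeasureTheory Filter Topology

namespace H30.LE

variable {α : Type*} [MeasurableSpace α] {μ : Measure α}
variable {E : Type*} [NormedAddCommGroup E] [InnerProductSpace ℝ E]

theorem inner_toLp {a b : α → E} (ha : MemLp a 2 μ) (hb : MemLp b 2 μ) :
    inner ℝ (ha.toLp a) (hb.toLp b) = ∫ x, inner ℝ (a x) (b x) ∂μ := by
  rw [L2.inner_def]
  refine integral_congr_ae ?_
  filter_upwards [ha.coeFn_toLp, hb.coeFn_toLp] with x h1 h2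
  rw [h1, h2]

theorem tendsto_toLp {b : ℕ → α → E} {b' : α → E} (hb : ∀ n, MemLp (b n) 2 μ)
    (hb' : MemLp b' 2 μ)
    (h : Tendsto (fun n => eLpNorm (fun x => b n x - b' x) 2 μ) atTop (𝓝 0)) :
    Tendsto (fun n => (hb n).toLp (b n)) atTop (𝓝 (hb'.toLp b')) := by
  have : Fact ((1:ENNReal) ≤ 2) := ⟨by norm_num⟩
  exact (Lp.tendsto_Lp_iff_tendsto_eLpNorm'' b hb b' hb').mpr h

theorem tendsto_integral_inner {a : ℕ → α → E} {a' : α → E} {b : ℕ → α → E} {b' : α → E}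
    (ha : ∀ n, MemLp (a n) 2 μ) (ha' : MemLp a' 2 μ)
    (hb : ∀ n, MemLp (b n) 2 μ) (hb' : MemLp b' 2 μ)
    (h1 : Tendsto (fun n => eLpNorm (fun x => a n x - a' x) 2 μ) atTop (𝓝 0))
    (h2 : Tendsto (fun n => eLpNorm (fun x => b n x - b' x) 2 μ) atTop (𝓝 0)) :
    Tendsto (fun n => ∫ x, inner ℝ (a n x) (b n x) ∂μ) atTop
      (𝓝 (∫ x, inner ℝ (a' x) (b' x) ∂μ)) := by
  have := (tendsto_toLp ha ha' h1).inner (𝕜 := ℝ) (tendsto_toLp hb hb' h2)
  rw [inner_toLp ha' hb'] at this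
  refine this.congr fun n => ?_
  exact inner_toLp (ha n) (hb n)

theorem tendsto_const_L2 (a : α → E) :
    Tendsto (fun _ : ℕ => eLpNorm (fun x => a x - a x) 2 μ) atTop (𝓝 0) := by
  simp

theorem tendsto_integral_inner_left {a : α → E} {b : ℕ → α → E} {b' : α → E}
    (ha : MemLp a 2 μ) (hb : ∀ n, MemLp (b n) 2 μ) (hb' : MemLp b' 2 μ)
    (h2 : Tendsto (fun n => eLpNorm (fun x => b n x - b' x) 2 μ) atTop (𝓝 0)) :
    Tendsto (fun n => ∫ x, inner ℝ (a x) (b n x) ∂μ) atTop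
      (𝓝 (∫ x, inner ℝ (a x) (b' x) ∂μ)) :=
  tendsto_integral_inner (fun _ => ha) ha hb hb' (tendsto_const_L2 a) h2

theorem tendsto_integral_norm_sq {b : ℕ → α → E} {b' : α → E}
    (hb : ∀ n, MemLp (b n) 2 μ) (hb' : MemLp b' 2 μ)
    (h2 : Tendsto (fun n => eLpNorm (fun x => b n x - b' x) 2 μ) atTop (𝓝 0)) :
    Tendsto (fun n => ∫ x, ‖b n x‖ ^ 2 ∂μ) atTop (𝓝 (∫ x, ‖b' x‖ ^ 2 ∂μ)) := by
  have := tendsto_integral_inner hb hb' hb hb' h2 h2
  simpa only [real_inner_self_eq_norm_sq] using this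

theorem integrable_inner {a b : α → E} (ha : MemLp a 2 μ) (hb : MemLp b 2 μ) :
    Integrable (fun x => inner ℝ (a x) (b x)) μ := by
  have h := L2.integrable_inner (𝕜 := ℝ) (ha.toLp a) (hb.toLp b)
  refine h.congr ?_
  filter_upwards [ha.coeFn_toLp, hb.coeFn_toLp] with x h1 h2
  rw [h1, h2]

/-- Cauchy-Schwarz -/
theorem integral_inner_le {a b : α → E} (ha : MemLp a 2 μ) (hb : MemLp b 2 μ) :
    |∫ x, inner ℝ (a x) (b x) ∂μ| ≤ √(∫ x, ‖a x‖ ^ 2 ∂μ) * √(∫ x, ‖b x‖ ^ 2 ∂μ) := by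
  rw [← inner_toLp ha hb]
  have h := abs_real_inner_le_norm (ha.toLp a) (hb.toLp b)
  have e : ∀ {c : α → E} (hc : MemLp c 2 μ), ‖hc.toLp c‖ = √(∫ x, ‖c x‖ ^ 2 ∂μ) := by
    intro c hc
    rw [← Real.sqrt_sq (norm_nonneg _), ← real_inner_self_eq_norm_sq, inner_toLp hc hc]
    simp only [real_inner_self_eq_norm_sq]
  rw [e ha, e hb] at h
  exact h

/-- two `L²` limits of sequences with difference tending to zero agree -/
theorem memLp_of_tendsto {b : ℕ → α → E} {b' : α → E} (hb : ∀ n, MemLp (b n) 2 μ)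
    (hm : AEStronglyMeasurable b' μ)
    (h : Tendsto (fun n => eLpNorm (fun x => b n x - b' x) 2 μ) atTop (𝓝 0)) :
    MemLp b' 2 μ := by
  have : ∀ᶠ n in atTop, eLpNorm (fun x => b n x - b' x) 2 μ < 1 :=
    h.eventually (gt_mem_nhds (by norm_num))
  obtain ⟨n, hn⟩ := this.exists
  have h1 : MemLp (fun x => b n x - b' x) 2 μ :=
    ⟨(hb n).aestronglyMeasurable.sub hm, hn.trans (by norm_num)⟩
  have := (hb n).sub h1
  refine this.ae_eq (Eventually.of_forall fun x => ?_)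
  simp

end H30.LE
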