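import Mathlib
import Pool.Agent.H30.LE.Bnd

/-!
The certificate function `T(x)` in elliptic coordinates, `T(1) < 0` and `T(x) > 0` for large `x`.
-/

open MeasureTheory Real

namespace H30.LE

/-- the parameter rectangle -/
def Rect : Set (ℝ × ℝ) := Set.Ioi 0 ×ˢ Set.Ioo 0 π

theorem measurableSet_Rect : MeasurableSet Rect := measurableSet_Ioi.prod measurableSet_Ioo

/-- the majorant -/
noncomputable def maj (r : ℝ) (p : ℝ × ℝ) : ℝ :=
  Jx (sinh p.1 ^ 2) (sin p.2 ^ 2) * (p.1 ^ ((11:ℝ) / 4) * (sinh p.1 * sin p.2) ^ (-r))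

theorem measurable_Jx : Measurable fun p : ℝ × ℝ => Jx (sinh p.1 ^ 2) (sin p.2 ^ 2) := by
  unfold Jx
  have h1 : Measurable fun p : ℝ × ℝ => sinh p.1 := continuous_sinh.measurable.comp measurable_fst
  have h2 : Measurable fun p : ℝ × ℝ => sin p.2 := continuous_sin.measurable.comp measurable_snd
  exact ((h1.pow_const 2).add (h2.pow_const 2)).div
    ((((h1.pow_const 2).add_const 1).sub (h2.pow_const 2)).pow_const _ |>.const_mul 16)

theorem measurable_maj (r : ℝ) : Measurable (maj r) := by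
  unfold maj
  have h1 : Measurable fun p : ℝ × ℝ => sinh p.1 := continuous_sinh.measurable.comp measurable_fst
  have h2 : Measurable fun p : ℝ × ℝ => sin p.2 := continuous_sin.measurable.comp measurable_snd
  exact measurable_Jx.mul ((measurable_fst.pow_const _).mul ((h1.mul h2).pow_const _))

theorem ae_good2 : ∀ᵐ p : ℝ × ℝ ∂((volume : Measure ℝ).prod (volume : Measure ℝ)),
    sin p.2 ≠ 0 ∧ cos p.2 ≠ 0 := by
  have hnull : (volume : Measure ℝ) {η : ℝ | ¬ (sin η ≠ 0 ∧ cos η ≠ 0)} = 0 := ae_good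
  have : ((volume : Measure ℝ).prod (volume : Measure ℝ))
      (Set.univ ×ˢ {η : ℝ | ¬ (sin η ≠ 0 ∧ cos η ≠ 0)}) = 0 := by
    rw [Measure.prod_prod, hnull, mul_zero]
  refine measure_mono_null ?_ this
  intro p hp
  simp only [Set.mem_prod, Set.mem_univ, true_and]
  exact hp

theorem maj_nonneg {r : ℝ} {p : ℝ × ℝ} (hp : p ∈ Rect) : 0 ≤ maj r p := by
  have h1 : 0 < p.1 := hp.1
  have hs : 0 < sinh p.1 := sinh_pos_iff.mpr h1
  have hsin : 0 < sin p.2 := sin_pos_of_pos_of_lt_pi hp.2.1 hp.2.2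
  unfold maj
  have := Jx_nonneg (S := sinh p.1 ^ 2) (by positivity) (σ := sin p.2 ^ 2)
    ⟨sq_nonneg _, sin_sq_le_one _⟩
  positivity

theorem integrableOn_maj {r : ℝ} (hr : 5 / 8 < r) (hr1 : r < 7 / 8) :
    IntegrableOn (maj r) Rect := by
  have ha := integrableOn_ar hr hr1.le
  have hb := integrableOn_br (r := r) (by linarith) hr1
  have hab : Integrable (fun p : ℝ × ℝ => ar r p.1 * br r p.2)
      ((volume.restrict (Set.Ioi 0)).prod (volume.restrict (Set.Ioo 0 π))) := ha.mul_prod hb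
  have e : (volume : Measure (ℝ × ℝ)).restrict Rect =
      (volume.restrict (Set.Ioi 0)).prod (volume.restrict (Set.Ioo 0 π)) := by
    rw [Measure.prod_restrict]; rfl
  unfold IntegrableOn
  rw [e]
  refine Integrable.mono' hab (measurable_maj r).aestronglyMeasurable ?_
  rw [← e, ae_restrict_iff' measurableSet_Rect]
  filter_upwards [ae_good2] with p hg hp
  rw [Real.norm_eq_abs, abs_of_nonneg (maj_nonneg hp)]
  have h1 : 0 < p.1 := hp.1
  have hs : 0 < sinh p.1 := sinh_pos_iff.mpr h1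
  have hsin : 0 < sin p.2 := sin_pos_of_pos_of_lt_pi hp.2.1 hp.2.2
  have hJ := Jx_upper (ξ := p.1) (η := p.2) h1 hg.2
  unfold maj ar br
  calc _ ≤ (cosh p.1 ^ 2 * sinh p.1 ^ (-(11:ℝ) / 8) * |cos p.2| ^ (-(1:ℝ) / 8)) *
        (p.1 ^ ((11:ℝ) / 4) * (sinh p.1 * sin p.2) ^ (-r)) := by gcongr
    _ = _ := by
      rw [mul_rpow hs.le hsin.le]
      have : sinh p.1 ^ (-(11:ℝ) / 8 - r) = sinh p.1 ^ (-(11:ℝ) / 8) * sinh p.1 ^ (-r) := by
        rw [← rpow_add hs]; congr 1
      rw [this]; ring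

/-- growth of `g` -/
theorem exists_g_bound : ∃ C : ℝ, 0 < C ∧ ∀ y : ℝ, 0 ≤ y → |g y| ≤ C * y ^ ((11:ℝ) / 4) := by
  -- middle range
  obtain ⟨C1, hC1⟩ := (isCompact_Icc (a := (1:ℝ)/2) (b := 2)).exists_bound_of_continuousOn
    continuous_g.continuousOn
  refine ⟨|C1| * 8 + 100, by positivity, ?_⟩
  intro y hy
  have hyp : 0 ≤ y ^ ((11:ℝ) / 4) := by positivity
  rcases le_total y (1/2) with h | h
  · -- small
    have h1 : |g y| ≤ 2 * y ^ 4 := by
      rw [g_eq_integral y hy]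
      have hb : ∀ s ∈ Set.uIoc (0:ℝ) y, ‖(y - s) * log (1 - s ^ 2)‖ ≤ 2 * y ^ 3 := by
        intro s hs
        rw [Set.uIoc_of_le hy] at hs
        have hs0 : 0 < s := hs.1
        have hs1 : s ≤ y := hs.2
        have hs2 : s ^ 2 ≤ y ^ 2 := by nlinarith
        have hq : y ^ 2 ≤ 1 / 4 := by nlinarith
        have hpos : 0 < 1 - s ^ 2 := by linarith
        have l1 : log (1 - s ^ 2) ≤ 0 := log_nonpos (by linarith) (by nlinarith)
        have l2 : -(2 * s ^ 2) ≤ log (1 - s ^ 2) := by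
          have := one_sub_inv_le_log_of_pos hpos
          refine le_trans ?_ this
          have : (1 - s ^ 2)⁻¹ ≤ 1 + 2 * s ^ 2 := by
            rw [inv_le_iff_one_le_mul₀ hpos]
            nlinarith [sq_nonneg s]
          linarith
        rw [Real.norm_eq_abs, abs_mul, abs_of_nonpos l1, abs_of_nonneg (by linarith)]
        have a1 : y - s ≤ y := by linarith
        have a2 : -log (1 - s ^ 2) ≤ 2 * y ^ 2 := by linarith
        calc (y - s) * -log (1 - s ^ 2) ≤ y * (2 * y ^ 2) :=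
              mul_le_mul a1 a2 (by linarith) hy
          _ = _ := by ring
      have := intervalIntegral.norm_integral_le_of_norm_le_const hb
      rw [sub_zero, abs_of_nonneg hy, Real.norm_eq_abs] at this
      calc _ ≤ _ := this
        _ = _ := by ring
    have h2 : y ^ 4 ≤ y ^ ((11:ℝ) / 4) := by
      rcases eq_or_lt_of_le hy with h0 | h0
      · rw [← h0]; simp
      · rw [← rpow_natCast]
        exact rpow_le_rpow_of_exponent_ge h0 (by linarith) (by norm_num)
    have : 0 ≤ |C1| := abs_nonneg _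
    nlinarith
  rcases le_total y 2 with h' | h'
  · have h1 := hC1 y ⟨h, h'⟩
    rw [Real.norm_eq_abs] at h1
    have h2 : (1:ℝ) / 8 ≤ y ^ ((11:ℝ) / 4) := by
      calc (1:ℝ) / 8 = (1 / 2) ^ (3:ℝ) := by norm_num
        _ ≤ (1 / 2) ^ ((11:ℝ) / 4) :=
            rpow_le_rpow_of_exponent_ge (by norm_num) (by norm_num) (by norm_num)
        _ ≤ y ^ ((11:ℝ) / 4) := rpow_le_rpow (by norm_num) h (by norm_num)
    have h3 : C1 ≤ |C1| := le_abs_self _
    have : 0 ≤ |C1| := abs_nonneg _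
    nlinarith
  · -- large
    have hy0 : 0 < y := by linarith
    have key : ∀ x : ℝ, 1 ≤ x → log x ≤ 2 * x ^ ((1:ℝ)/2) := by
      intro x hx
      have := log_le_rpow_div (x := x) (ε := 1/2) (by linarith) (by norm_num)
      linarith
    have l1 : 0 ≤ log (1 + y) := log_nonneg (by linarith)
    have l2 : 0 ≤ log (y - 1) := log_nonneg (by linarith)
    have m1 : log (1 + y) ≤ 4 * y ^ ((1:ℝ)/2) := by
      have a := key (1 + y) (by linarith)
      have b : (1 + y) ^ ((1:ℝ)/2) ≤ (4 * y) ^ ((1:ℝ)/2) :=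
        rpow_le_rpow (by linarith) (by linarith) (by norm_num)
      have c : (4 * y) ^ ((1:ℝ)/2) = 2 * y ^ ((1:ℝ)/2) := by
        rw [mul_rpow (by norm_num) hy]
        congr 1
        rw [← sqrt_eq_rpow, show (4:ℝ) = 2 ^ 2 by norm_num, sqrt_sq (by norm_num)]
      linarith
    have m2 : log (y - 1) ≤ 4 * y ^ ((1:ℝ)/2) :=
      (log_le_log (by linarith) (by linarith)).trans m1
    have e : g y = ((1 + y) ^ 2 * log (1 + y) + (y - 1) ^ 2 * log (y - 1)) / 2 - 3 / 2 * y ^ 2 := by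
      unfold g
      rw [← log_neg_eq_log (1 - y), neg_sub]
      ring
    have hr : 0 ≤ y ^ ((1:ℝ)/2) := by positivity
    have hr1 : 1 ≤ y ^ ((1:ℝ)/2) := one_le_rpow (by linarith) (by norm_num)
    have b1 : (1 + y) ^ 2 * log (1 + y) ≤ (4 * y ^ 2) * (4 * y ^ ((1:ℝ)/2)) := by
      apply mul_le_mul _ m1 l1 (by positivity); nlinarith
    have b2 : (y - 1) ^ 2 * log (y - 1) ≤ (4 * y ^ 2) * (4 * y ^ ((1:ℝ)/2)) := by
      apply mul_le_mul _ m2 l2 (by positivity); nlinarith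
    have b1' : 0 ≤ (1 + y) ^ 2 * log (1 + y) := by positivity
    have b2' : 0 ≤ (y - 1) ^ 2 * log (y - 1) := by positivity
    have h5 : |g y| ≤ 18 * (y ^ 2 * y ^ ((1:ℝ)/2)) := by
      rw [e, abs_le]
      constructor
      · nlinarith [sq_nonneg y]
      · nlinarith [sq_nonneg y]
    have h6 : y ^ 2 * y ^ ((1:ℝ)/2) ≤ y ^ ((11:ℝ)/4) := by
      rw [← rpow_natCast, ← rpow_add hy0]
      exact rpow_le_rpow_of_exponent_le (by linarith) (by norm_num)
    have : 0 ≤ |C1| := abs_nonneg _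
    nlinarith

/-- the integrand of `T` in elliptic coordinates -/
noncomputable def tau (x : ℝ) (p : ℝ × ℝ) : ℝ :=
  Jx (sinh p.1 ^ 2) (sin p.2 ^ 2) *
    ((sinh p.1 * sin p.2) ^ 2 * g (x * p.1 / (sinh p.1 * sin p.2)))

theorem measurable_tau (x : ℝ) : Measurable (tau x) := by
  unfold tau
  have h1 : Measurable fun p : ℝ × ℝ => sinh p.1 := continuous_sinh.measurable.comp measurable_fst
  have h2 : Measurable fun p : ℝ × ℝ => sin p.2 := continuous_sin.measurable.comp measurable_snd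
  exact measurable_Jx.mul (((h1.mul h2).pow_const 2).mul
    (continuous_g.measurable.comp ((measurable_fst.const_mul x).div (h1.mul h2))))

theorem tau_bound {C : ℝ} (hC : ∀ y : ℝ, 0 ≤ y → |g y| ≤ C * y ^ ((11:ℝ) / 4)) {x : ℝ}
    (hx : 0 ≤ x) {p : ℝ × ℝ} (hp : p ∈ Rect) :
    |tau x p| ≤ C * x ^ ((11:ℝ) / 4) * maj (3 / 4) p := by
  have h1 : 0 < p.1 := hp.1
  have hs : 0 < sinh p.1 := sinh_pos_iff.mpr h1
  have hsin : 0 < sin p.2 := sin_pos_of_pos_of_lt_pi hp.2.1 hp.2.2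
  have hJ := Jx_nonneg (S := sinh p.1 ^ 2) (by positivity) (σ := sin p.2 ^ 2)
    ⟨sq_nonneg _, sin_sq_le_one _⟩
  set h := sinh p.1 * sin p.2 with hh
  have hpos : 0 < h := by positivity
  have hb := hC (x * p.1 / h) (by positivity)
  unfold tau maj
  rw [← hh, abs_mul, abs_of_nonneg hJ, abs_mul, abs_of_nonneg (by positivity : (0:ℝ) ≤ h ^ 2)]
  calc Jx (sinh p.1 ^ 2) (sin p.2 ^ 2) * (h ^ 2 * |g (x * p.1 / h)|) ≤
        Jx (sinh p.1 ^ 2) (sin p.2 ^ 2) * (h ^ 2 * (C * (x * p.1 / h) ^ ((11:ℝ) / 4))) := by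
          gcongr
    _ = _ := by
        rw [div_rpow (by positivity) hpos.le, mul_rpow hx h1.le]
        have e : h ^ (-(3 / 4) : ℝ) = h ^ 2 / h ^ ((11:ℝ) / 4) := by
          rw [← rpow_natCast, ← rpow_sub hpos]; norm_num
        rw [e]
        ring

theorem integrableOn_tau {x : ℝ} (hx : 0 ≤ x) : IntegrableOn (tau x) Rect := by
  obtain ⟨C, -, hC⟩ := exists_g_bound
  refine Integrable.mono' ((integrableOn_maj (r := 3/4) (by norm_num) (by norm_num)).const_mul
    (C * x ^ ((11:ℝ) / 4))) (measurable_tau x).aestronglyMeasurable ?_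
  refine (ae_restrict_mem measurableSet_Rect).mono fun p hp => ?_
  exact tau_bound hC hx hp

/-- the certificate function on one tile -/
noncomputable def Tt (x : ℝ) : ℝ := ∫ p in Rect, tau x p

theorem Tt_eq {x : ℝ} (hx : 0 ≤ x) :
    Tt x = ∫ ξ in Set.Ioi (0:ℝ), sinh ξ ^ 2 * KJ (Jx (sinh ξ ^ 2)) (x * ξ / sinh ξ) := by
  have h := integrableOn_tau hx
  unfold Tt Rect at *
  rw [Measure.volume_eq_prod] at h ⊢
  rw [setIntegral_prod _ h]
  refine setIntegral_congr_fun measurableSet_Ioi fun ξ hξ => ?_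
  have hs : 0 < sinh ξ := sinh_pos_iff.mpr hξ
  rw [KJ, intervalIntegral.integral_of_le pi_pos.le, integral_Ioc_eq_integral_Ioo,
    ← integral_const_mul]
  refine setIntegral_congr_fun measurableSet_Ioo fun η hη => ?_
  have hsin : 0 < sin η := sin_pos_of_pos_of_lt_pi hη.1 hη.2
  simp only [tau]
  rw [div_div]
  ring

theorem integrableOn_outer {x : ℝ} (hx : 0 ≤ x) :
    IntegrableOn (fun ξ => sinh ξ ^ 2 * KJ (Jx (sinh ξ ^ 2)) (x * ξ / sinh ξ)) (Set.Ioi 0) := by
  have h := integrableOn_tau hx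
  have e : (volume : Measure (ℝ × ℝ)).restrict Rect =
      (volume.restrict (Set.Ioi 0)).prod (volume.restrict (Set.Ioo 0 π)) := by
    rw [Measure.prod_restrict]; rfl
  unfold IntegrableOn at h
  rw [e] at h
  have h2 := h.integral_prod_left
  refine h2.congr ?_
  refine (ae_restrict_mem measurableSet_Ioi).mono fun ξ hξ => ?_
  have hs : 0 < sinh ξ := sinh_pos_iff.mpr hξ
  simp only
  rw [KJ, intervalIntegral.integral_of_le pi_pos.le, integral_Ioc_eq_integral_Ioo,
    ← integral_const_mul]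
  refine setIntegral_congr_fun measurableSet_Ioo fun η hη => ?_
  simp only [tau]
  rw [div_div]
  ring

theorem Tt_one_neg : Tt 1 < 0 := by
  rw [Tt_eq zero_le_one]
  have hi := integrableOn_outer (x := 1) zero_le_one
  have hneg : ∀ ξ ∈ Set.Ioi (0:ℝ),
      sinh ξ ^ 2 * KJ (Jx (sinh ξ ^ 2)) (1 * ξ / sinh ξ) < 0 := by
    intro ξ hξ
    have hξ' : (0:ℝ) < ξ := hξ
    have hs : 0 < sinh ξ := sinh_pos_iff.mpr hξ
    have hle : ξ ≤ sinh ξ := self_le_sinh_iff.mpr hξ'.le
    have hS : 0 < sinh ξ ^ 2 := by positivity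
    have := KJ_neg (Jx_strictMono hS) (Jx_continuous hS) (Jx_bdd hS) (1 * ξ / sinh ξ)
      (by positivity) (by rw [div_le_one hs]; linarith)
    nlinarith
  have hpos : 0 < ∫ ξ in Set.Ioi (0:ℝ),
      -(sinh ξ ^ 2 * KJ (Jx (sinh ξ ^ 2)) (1 * ξ / sinh ξ)) := by
    rw [setIntegral_pos_iff_support_of_nonneg_ae]
    · have : Set.Ioi (0:ℝ) ⊆ Function.support (fun ξ =>
          -(sinh ξ ^ 2 * KJ (Jx (sinh ξ ^ 2)) (1 * ξ / sinh ξ))) ∩ Set.Ioi 0 := by
        intro ξ hξ
        refine ⟨?_, hξ⟩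
        rw [Function.mem_support]
        have := hneg ξ hξ
        linarith
      refine lt_of_lt_of_le ?_ (measure_mono this)
      simp
    · refine (ae_restrict_mem measurableSet_Ioi).mono fun ξ hξ => ?_
      have := hneg ξ hξ
      simp only [Pi.zero_apply]
      linarith
    · exact hi.neg
  rw [integral_neg] at hpos
  linarith

end H30.LE
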