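import Mathlib
import Pool.Agent.H30.LE.TT

/-!
`T(x) > 0` for large `x`.
-/

open MeasureTheory Real

namespace H30.LE

theorem integrableOn_A : IntegrableOn (fun ξ : ℝ => ξ ^ 2 * sinh ξ ^ (-(3:ℝ) / 2)) (Set.Ioi 0) := by
  have h := integrableOn_poly_exp' (s := (1:ℝ) / 2) (b := 3 / 2) (by norm_num) (by norm_num) 2
  have hm : Measurable (fun ξ : ℝ => ξ ^ 2 * sinh ξ ^ (-(3:ℝ) / 2)) :=
    (measurable_id.pow_const 2).mul (continuous_sinh.measurable.pow_const _)
  refine Integrable.mono' h hm.aestronglyMeasurable ?_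
  refine (ae_restrict_mem measurableSet_Ioi).mono fun ξ hξ => ?_
  have hξ' : (0:ℝ) < ξ := hξ
  have hs : 0 < sinh ξ := sinh_pos_iff.mpr hξ'
  rw [Real.norm_eq_abs, abs_of_nonneg (by positivity)]
  have h1 := sinh_rpow_neg_le (ρ := 3 / 2) hξ' (by norm_num) (by norm_num)
  have e : -(3:ℝ) / 2 = -(3 / 2) := by norm_num
  rw [e]
  calc ξ ^ 2 * sinh ξ ^ (-(3 / 2) : ℝ) ≤
      ξ ^ 2 * (exp (-(3 / 2) * ξ) * ξ ^ (-(3 / 2) : ℝ) * (1 + 2 * ξ) ^ 2) := by gcongr
    _ = _ := by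
      have : ξ ^ ((1:ℝ) / 2) = ξ ^ 2 * ξ ^ (-(3 / 2) : ℝ) := by
        rw [← rpow_natCast, ← rpow_add hξ']; norm_num
      rw [this]; ring

theorem Tt_pos : ∃ x : ℝ, 1 < x ∧ 0 < Tt x := by
  set A0 : ℝ := ∫ ξ in Set.Ioi (0:ℝ), (7 / 32 * (log 2 * π)) * (ξ ^ 2 * sinh ξ ^ (-(3:ℝ) / 2))
    with hA0
  have hA0n : 0 ≤ A0 := by
    rw [hA0]
    refine setIntegral_nonneg measurableSet_Ioi fun ξ hξ => ?_
    have hξ' : (0:ℝ) < ξ := hξ
    have hs : 0 < sinh ξ := sinh_pos_iff.mpr hξ'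
    have : 0 < log 2 := log_pos (by norm_num)
    positivity
  set L : ℝ := 3 + 64 * (A0 + 1) / π with hL
  have hL3 : 3 ≤ L := by rw [hL]; have := pi_pos; have : 0 ≤ 64 * (A0 + 1) / π := by positivity
                         linarith
  have hs2 : 1 < sinh 2 := by
    have : (2:ℝ) ≤ sinh 2 := self_le_sinh_iff.mpr (by norm_num)
    linarith
  set x : ℝ := sinh 2 * exp L with hx
  have hexp : 1 < exp L := one_lt_exp_iff.mpr (by linarith)
  have hx1 : 1 < x := by rw [hx]; nlinarith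
  refine ⟨x, hx1, ?_⟩
  rw [Tt_eq (by linarith)]
  have hi := integrableOn_outer (x := x) (by linarith)
  set B : ℝ := π / 32 * (L / 2 - 3 / 2) with hB
  have hB' : B = A0 + 1 := by
    rw [hB, hL]; have := pi_pos; field_simp; ring
  -- lower bound
  have hi2 : IntegrableOn (fun ξ : ℝ => x ^ 2 * ((Set.Icc (1:ℝ) 2).indicator (fun _ => B) ξ -
      (7 / 32 * (log 2 * π)) * (ξ ^ 2 * sinh ξ ^ (-(3:ℝ) / 2)))) (Set.Ioi 0) := by
    apply Integrable.const_mul
    apply Integrable.sub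
    · rw [integrable_indicator_iff measurableSet_Icc]
      apply integrableOn_const
      · rw [Measure.restrict_apply measurableSet_Icc]
        exact (lt_of_le_of_lt (measure_mono Set.inter_subset_left) (by simp)).ne
      · simp
    · exact integrableOn_A.const_mul _
  have hle : ∫ ξ in Set.Ioi (0:ℝ), x ^ 2 * ((Set.Icc (1:ℝ) 2).indicator (fun _ => B) ξ -
      (7 / 32 * (log 2 * π)) * (ξ ^ 2 * sinh ξ ^ (-(3:ℝ) / 2))) ≤
      ∫ ξ in Set.Ioi (0:ℝ), sinh ξ ^ 2 * KJ (Jx (sinh ξ ^ 2)) (x * ξ / sinh ξ) := by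
    refine setIntegral_mono_on hi2 hi measurableSet_Ioi fun ξ hξ => ?_
    have hξ' : (0:ℝ) < ξ := hξ
    have hs : 0 < sinh ξ := sinh_pos_iff.mpr hξ'
    have hS : 0 < sinh ξ ^ 2 := by positivity
    have hJm := (Jx_strictMono hS).monotoneOn
    have hJ0 : 0 ≤ Jx (sinh ξ ^ 2) 0 := Jx_nonneg hS ⟨le_refl _, zero_le_one⟩
    have hlog2 : 0 < log 2 := log_pos (by norm_num)
    have hApos : 0 ≤ (7 / 32 * (log 2 * π)) * (ξ ^ 2 * sinh ξ ^ (-(3:ℝ) / 2)) := by positivity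
    by_cases hmem : ξ ∈ Set.Icc (1:ℝ) 2
    · rw [Set.indicator_of_mem hmem]
      have hsle : sinh ξ ≤ sinh 2 := sinh_le_sinh.mpr hmem.2
      have hc : exp L ≤ x * ξ / sinh ξ := by
        rw [le_div_iff₀ hs, hx]
        have := hmem.1
        have h1 : exp L * sinh ξ ≤ exp L * sinh 2 := by gcongr
        have h2 : sinh 2 * exp L ≤ sinh 2 * exp L * ξ := by
          have : 0 < sinh 2 * exp L := by positivity
          nlinarith
        nlinarith
      have hlogc : L ≤ log (x * ξ / sinh ξ) := by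
        rw [← log_exp L]; exact log_le_log (exp_pos _) hc
      have hexpL : 2 ≤ exp L := by have := add_one_le_exp L; linarith
      have hK := KJ_large hJm hJ0 (Jx_continuous hS) (Jx_bdd hS) (x * ξ / sinh ξ)
        (by linarith) (by linarith)
      have hJl : 1 / 32 ≤ Jx (sinh ξ ^ 2) 0 := by
        unfold Jx
        rw [add_zero, sub_zero]
        have hs1 : 1 ≤ sinh ξ := by
          have := self_le_sinh_iff.mpr hξ'.le
          linarith [hmem.1]
        have hS1 : 1 ≤ sinh ξ ^ 2 := by nlinarith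
        have hp : (sinh ξ ^ 2 + 1) ^ ((3:ℝ) / 4) ≤ (sinh ξ ^ 2 + 1) := by
          calc (sinh ξ ^ 2 + 1) ^ ((3:ℝ) / 4) ≤ (sinh ξ ^ 2 + 1) ^ (1:ℝ) :=
                rpow_le_rpow_of_exponent_le (by linarith) (by norm_num)
            _ = _ := rpow_one _
        have hp0 : 0 < (sinh ξ ^ 2 + 1) ^ ((3:ℝ) / 4) := by positivity
        rw [div_le_div_iff₀ (by norm_num) (by positivity)]
        nlinarith
      have hL2 : 0 ≤ L / 2 - 3 / 2 := by linarith
      have e1 : sinh ξ ^ 2 * (π * (Jx (sinh ξ ^ 2) 0 * ((x * ξ / sinh ξ) ^ 2 *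
          (log (x * ξ / sinh ξ) / 2 - 3 / 2)))) =
          π * Jx (sinh ξ ^ 2) 0 * (x ^ 2 * ξ ^ 2 * (log (x * ξ / sinh ξ) / 2 - 3 / 2)) := by
        field_simp
      have h1 : x ^ 2 * B ≤ π * Jx (sinh ξ ^ 2) 0 *
          (x ^ 2 * ξ ^ 2 * (log (x * ξ / sinh ξ) / 2 - 3 / 2)) := by
        have a1 : π / 32 ≤ π * Jx (sinh ξ ^ 2) 0 := by
          have := mul_le_mul_of_nonneg_left hJl pi_pos.le; linarith
        have a2 : x ^ 2 * (L / 2 - 3 / 2) ≤
            x ^ 2 * ξ ^ 2 * (log (x * ξ / sinh ξ) / 2 - 3 / 2) := by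
          have q1 : 1 ≤ ξ ^ 2 := by have := hmem.1; nlinarith
          have q2 : L / 2 - 3 / 2 ≤ log (x * ξ / sinh ξ) / 2 - 3 / 2 := by linarith
          calc x ^ 2 * (L / 2 - 3 / 2) ≤ (x ^ 2 * ξ ^ 2) * (L / 2 - 3 / 2) := by
                apply mul_le_mul_of_nonneg_right _ hL2
                nlinarith [sq_nonneg x]
            _ ≤ _ := mul_le_mul_of_nonneg_left q2 (by positivity)
        calc x ^ 2 * B = π / 32 * (x ^ 2 * (L / 2 - 3 / 2)) := by rw [hB]; ring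
          _ ≤ _ := mul_le_mul a1 a2 (by positivity) (by positivity)
      have h2 : sinh ξ ^ 2 * (π * (Jx (sinh ξ ^ 2) 0 * ((x * ξ / sinh ξ) ^ 2 *
          (log (x * ξ / sinh ξ) / 2 - 3 / 2)))) ≤
          sinh ξ ^ 2 * KJ (Jx (sinh ξ ^ 2)) (x * ξ / sinh ξ) :=
        mul_le_mul_of_nonneg_left hK hS.le
      rw [e1] at h2
      have h3 : 0 ≤ x ^ 2 * ((7 / 32 * (log 2 * π)) * (ξ ^ 2 * sinh ξ ^ (-(3:ℝ) / 2))) := by
        positivity
      linarith
    · rw [Set.indicator_of_notMem hmem, zero_sub]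
      have hK := KJ_lower hJm hJ0 (Jx_continuous hS) (Jx_bdd hS) (x * ξ / sinh ξ) (by positivity)
      have hosc := Jx_osc hξ'
      have h1 : (Jx (sinh ξ ^ 2) 1 - Jx (sinh ξ ^ 2) 0) * (log 2 * π) * (x * ξ / sinh ξ) ^ 2 ≤
          (7 / 32) * sinh ξ ^ (-(3:ℝ) / 2) * (log 2 * π) * (x * ξ / sinh ξ) ^ 2 := by
        gcongr
      have h2 : sinh ξ ^ 2 * (-((7 / 32) * sinh ξ ^ (-(3:ℝ) / 2) * (log 2 * π) *
          (x * ξ / sinh ξ) ^ 2)) ≤ sinh ξ ^ 2 * KJ (Jx (sinh ξ ^ 2)) (x * ξ / sinh ξ) :=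
        mul_le_mul_of_nonneg_left (by linarith) hS.le
      refine le_trans (le_of_eq ?_) h2
      field_simp
  refine lt_of_lt_of_le ?_ hle
  rw [integral_const_mul, integral_sub]
  · rw [← hA0, integral_indicator measurableSet_Icc, setIntegral_const]
    have : (volume.restrict (Set.Ioi (0:ℝ))).real (Set.Icc 1 2) = 1 := by
      rw [Measure.real, Measure.restrict_apply measurableSet_Icc]
      have : Set.Icc (1:ℝ) 2 ∩ Set.Ioi 0 = Set.Icc 1 2 := by
        apply Set.inter_eq_left.mpr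
        intro y hy
        have := hy.1
        simp only [Set.mem_Ioi]; linarith
      rw [this, Real.volume_Icc]
      norm_num
    rw [this, one_smul, hB']
    have : 0 < x ^ 2 := by positivity
    nlinarith
  · rw [integrable_indicator_iff measurableSet_Icc]
    apply integrableOn_const
    · rw [Measure.restrict_apply measurableSet_Icc]
      exact (lt_of_le_of_lt (measure_mono Set.inter_subset_left) (by simp)).ne
    · simp
  · exact integrableOn_A.const_mul _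

end H30.LE
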